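import Pool.Agent.Y395.HD.Rand

/-!
Almost all Cayley graphs of every finite group satisfy Hadwiger's conjecture.
-/

set_option autoImplicit false

namespace Pool.Agent.Y395.HD

open Finset

/-- The Cayley graph of `Γ` with connection set `S`. -/
def Cay {Γ : Type} [Group Γ] (S : Finset Γ) : SimpleGraph Γ where
  Adj x y := x ≠ y ∧ (x⁻¹ * y ∈ S ∨ y⁻¹ * x ∈ S)
  symm := ⟨fun _ _ h => ⟨h.1.symm, h.2.symm⟩⟩
  loopless := ⟨fun _ h => h.1 rfl⟩

section

variable {Γ : Type} [Group Γ] [Fintype Γ] [DecidableEq Γ]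

/-- the connection sets -/
def conn (Γ : Type) [Group Γ] [Fintype Γ] [DecidableEq Γ] : Finset (Finset Γ) :=
  (univ : Finset Γ).powerset.filter (fun S => 1 ∉ S ∧ ∀ g ∈ S, g⁻¹ ∈ S)

theorem mem_conn {S : Finset Γ} : S ∈ conn Γ ↔ 1 ∉ S ∧ ∀ g ∈ S, g⁻¹ ∈ S := by
  simp [conn]

/-- quotients of two different elements -/
def quo (K : Finset Γ) : Finset Γ := K.offDiag.image (fun p => p.1⁻¹ * p.2)

theorem mem_quo {K : Finset Γ} {g : Γ} :
    g ∈ quo K ↔ ∃ x ∈ K, ∃ y ∈ K, x ≠ y ∧ x⁻¹ * y = g := by
  simp only [quo, mem_image, mem_offDiag, Prod.exists]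
  constructor
  · rintro ⟨x, y, ⟨h1, h2, h3⟩, h4⟩
    exact ⟨x, h1, y, h2, h3, h4⟩
  · rintro ⟨x, h1, y, h2, h3, h4⟩
    exact ⟨x, y, ⟨h1, h2, h3⟩, h4⟩

theorem inv_mem_quo {K : Finset Γ} {g : Γ} (h : g ∈ quo K) : g⁻¹ ∈ quo K := by
  rw [mem_quo] at h ⊢
  obtain ⟨x, h1, y, h2, h3, rfl⟩ := h
  exact ⟨y, h2, x, h1, h3.symm, by group⟩

theorem one_notMem_quo {K : Finset Γ} : (1 : Γ) ∉ quo K := by
  intro h
  rw [mem_quo] at h
  obtain ⟨x, h1, y, h2, h3, h4⟩ := h
  exact h3 (inv_mul_eq_one.1 h4)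

theorem card_quo_le (K : Finset Γ) : (quo K).card ≤ K.card * K.card := by
  refine Finset.card_image_le.trans ?_
  rw [offDiag_card]
  omega

/-- A large set contains a set of size `r` with at least `r (r - 1) / 2` quotients. -/
theorem exists_sidon (K : Finset Γ) (r : ℕ) (hr : r ^ 3 ≤ K.card) :
    ∃ K' ⊆ K, K'.card = r ∧ r * (r - 1) ≤ 2 * (quo K').card := by
  induction r with
  | zero => exact ⟨∅, empty_subset _, card_empty, by simp⟩
  | succ r ih =>
    obtain ⟨K', h1, h2, h3⟩ := ih ((Nat.pow_le_pow_left (Nat.le_succ r) 3).trans hr)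
    let F : Finset Γ := K' ∪ (K' ×ˢ quo K').image (fun p => p.1 * p.2)
    have hF : F.card < K.card := by
      have h4 : F.card ≤ r + r * (r * r) := by
        refine (Finset.card_union_le _ _).trans ?_
        have h5 : ((K' ×ˢ quo K').image (fun p => p.1 * p.2)).card ≤ r * (r * r) := by
          refine Finset.card_image_le.trans ?_
          rw [card_product, h2]
          refine Nat.mul_le_mul_left r ?_
          have := card_quo_le K'
          rwa [h2] at this
        omega
      have h6 : r + r * (r * r) < (r + 1) ^ 3 := by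
        have : (r + 1) ^ 3 = r * (r * r) + 3 * (r * r) + 3 * r + 1 := by ring
        omega
      omega
    obtain ⟨x, hx, hxF⟩ : ∃ x ∈ K, x ∉ F := by
      by_contra hcon
      push Not at hcon
      have := Finset.card_le_card (show K ⊆ F from hcon)
      omega
    rw [mem_union, not_or] at hxF
    obtain ⟨hxK', hxQ⟩ := hxF
    refine ⟨insert x K', ?_, by rw [card_insert_of_notMem hxK', h2], ?_⟩
    · intro y hy
      rcases mem_insert.1 hy with rfl | hy
      · exact hx
      · exact h1 hy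
    · have h4 : quo K' ∪ K'.image (fun b => x⁻¹ * b) ⊆ quo (insert x K') := by
        intro g hg
        rcases mem_union.1 hg with hg | hg
        · rw [mem_quo] at hg ⊢
          obtain ⟨a, ha, b, hb, hab, h⟩ := hg
          exact ⟨a, mem_insert_of_mem ha, b, mem_insert_of_mem hb, hab, h⟩
        · obtain ⟨b, hb, rfl⟩ := mem_image.1 hg
          rw [mem_quo]
          exact ⟨x, mem_insert_self _ _, b, mem_insert_of_mem hb,
            fun h => hxK' (h ▸ hb), rfl⟩
      have h5 : Disjoint (quo K') (K'.image (fun b => x⁻¹ * b)) := by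
        rw [Finset.disjoint_right]
        intro g hg hgQ
        obtain ⟨b, hb, rfl⟩ := mem_image.1 hg
        apply hxQ
        rw [mem_image]
        refine ⟨(b, (x⁻¹ * b)⁻¹), mem_product.2 ⟨hb, inv_mem_quo hgQ⟩, ?_⟩
        simp
      have h6 := Finset.card_le_card h4
      rw [card_union_of_disjoint h5, card_image_of_injective _ (mul_right_injective x⁻¹),
        h2] at h6
      have h7 : (r + 1) * (r + 1 - 1) = r * (r - 1) + 2 * r := by
        rcases r with _ | r
        · simp
        · simp only [Nat.add_sub_cancel]; ring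
      omega

end

open Classical in
/-- **Almost all Cayley graphs** of every finite group satisfy Hadwiger's conjecture. -/
theorem random_cayley {A : ℕ} (hA : 1 ≤ A) {ε : ℝ} (hε : 0 < ε) :
    ∃ N : ℕ, ∀ (Γ : Type) [Group Γ] [Fintype Γ], N ≤ Fintype.card Γ →
      (((conn Γ).filter (fun S : Finset Γ => ¬ Hadwiger (Cay S) A)).card : ℝ) ≤
        ε * (conn Γ).card := by
  have e1 := eventually_log ((1 / 32 : ℝ) ^ 4) (by positivity) (6 * (10 ^ 7 * A))
  have e2 : ∀ᶠ n : ℕ in Filter.atTop, Real.exp (-((n : ℝ) / 40)) ≤ ε / 2 := by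
    have h1 : Filter.Tendsto (fun n : ℕ => Real.exp (-((n : ℝ) / 40))) Filter.atTop (nhds 0) := by
      refine Real.tendsto_exp_neg_atTop_nhds_zero.comp ?_
      exact Filter.Tendsto.atTop_div_const (by norm_num) tendsto_natCast_atTop_atTop
    exact h1.eventually (ge_mem_nhds (by positivity))
  have e3 : ∀ᶠ n : ℕ in Filter.atTop, (1 : ℝ) / n ≤ ε / 2 := by
    have h1 : Filter.Tendsto (fun n : ℕ => (1 : ℝ) / n) Filter.atTop (nhds 0) :=
      tendsto_const_div_atTop_nhds_zero_nat 1
    exact h1.eventually (ge_mem_nhds (by positivity))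
  obtain ⟨N, hN⟩ := Filter.eventually_atTop.1 (e1.and (e2.and (e3.and
    (Filter.eventually_ge_atTop 3))))
  refine ⟨N, ?_⟩
  intro Γ _ _ hV
  obtain ⟨f1, f2, f3, f4⟩ := hN _ hV
  set n : ℝ := (Fintype.card Γ : ℝ) with hn
  have hn3 : (3 : ℝ) ≤ n := by rw [hn]; exact_mod_cast f4
  set L : ℝ := Real.log n with hL
  have hL1 : 1 ≤ L := by
    rw [hL, Real.le_log_iff_exp_le (by linarith)]
    have := Real.exp_one_lt_d9
    linarith
  set r : ℕ := ⌈16 * L⌉₊ + 1 with hr
  have hr1 : 16 * L + 1 ≤ r := by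
    rw [hr]; push_cast
    linarith [Nat.le_ceil (16 * L)]
  have hr2 : (r : ℝ) ≤ 16 * L + 2 := by
    rw [hr]; push_cast
    linarith [(Nat.ceil_lt_add_one (show 0 ≤ 16 * L by linarith)).le]
  have hr0 : 1 ≤ r := by omega
  -- representatives of the pairs `g, g⁻¹`
  let e := Fintype.equivFin Γ
  let P : Finset Γ := univ.filter (fun g => g ≠ 1 ∧ e g ≤ e g⁻¹)
  have hP1 : ∀ g : Γ, g ≠ 1 → g ∈ P ∨ g⁻¹ ∈ P := by
    intro g hg
    rcases le_total (e g) (e g⁻¹) with h | h
    · exact Or.inl (mem_filter.2 ⟨mem_univ _, hg, h⟩)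
    · refine Or.inr (mem_filter.2 ⟨mem_univ _, inv_ne_one.2 hg, ?_⟩)
      rwa [inv_inv]
  have hP2 : ∀ g : Γ, g ∈ P → g⁻¹ ∈ P → g⁻¹ = g := by
    intro g h1 h2
    have h3 := (mem_filter.1 h1).2.2
    have h4 := (mem_filter.1 h2).2.2
    rw [inv_inv] at h4
    exact e.injective (le_antisymm h4 h3)
  have hP3 : (n - 1) / 2 ≤ P.card := by
    have h1 : (univ : Finset Γ).erase 1 ⊆ P ∪ P.image (fun g => g⁻¹) := by
      intro g hg
      rcases hP1 g (ne_of_mem_erase hg) with h | h
      · exact mem_union_left _ h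
      · exact mem_union_right _ (mem_image.2 ⟨_, h, inv_inv g⟩)
    have h2 := (Finset.card_le_card h1).trans (Finset.card_union_le _ _)
    have h3 : (P.image (fun g => g⁻¹)).card ≤ P.card := Finset.card_image_le
    rw [Finset.card_erase_of_mem (mem_univ _), Finset.card_univ] at h2
    have h4 : Fintype.card Γ ≤ 2 * P.card + 1 := by omega
    have h5 : n ≤ 2 * P.card + 1 := by rw [hn]; exact_mod_cast h4
    linarith
  let Sy : Finset Γ → Finset Γ := fun R => R ∪ R.image (fun g => g⁻¹)
  have hSy : ∀ (R : Finset Γ) (g : Γ), g ∈ Sy R ↔ g ∈ R ∨ g⁻¹ ∈ R := by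
    intro R g
    simp only [Sy, mem_union, mem_image]
    constructor
    · rintro (h | ⟨a, h, rfl⟩)
      · exact Or.inl h
      · right; rwa [inv_inv]
    · rintro (h | h)
      · exact Or.inl h
      · exact Or.inr ⟨_, h, inv_inv g⟩
  have hSyP : ∀ R ⊆ P, ∀ g ∈ P, g ∈ Sy R → g ∈ R := by
    intro R hR g hg h
    rcases (hSy R g).1 h with h | h
    · exact h
    · rwa [hP2 g hg (hR h)] at h
  -- the number of connection sets
  have hcount : 2 ^ P.card ≤ (conn Γ).card := by
    rw [← card_powerset]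
    refine Finset.card_le_card_of_injOn Sy ?_ ?_
    · intro R hR
      have hR' := mem_powerset.1 (Finset.mem_coe.1 hR)
      rw [Finset.mem_coe, mem_conn]
      refine ⟨?_, ?_⟩
      · intro h
        rw [hSy, inv_one, or_self] at h
        exact (mem_filter.1 (hR' h)).2.1 rfl
      · intro g hg
        rw [hSy] at hg ⊢
        rw [inv_inv]
        exact hg.symm
    · intro R hR R' hR' h
      have h1 := mem_powerset.1 (Finset.mem_coe.1 hR)
      have h2 := mem_powerset.1 (Finset.mem_coe.1 hR')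
      ext g
      constructor
      · intro hg
        exact hSyP R' h2 g (h1 hg) (h ▸ (hSy R g).2 (Or.inl hg))
      · intro hg
        exact hSyP R h1 g (h2 hg) (h ▸ (hSy R' g).2 (Or.inl hg))
  -- reduction to subsets of `P`
  have hred : ((conn Γ).filter (fun S : Finset Γ => ¬ Hadwiger (Cay S) A)).card ≤
      (P.powerset.filter (fun R : Finset Γ => ¬ Hadwiger (Cay (Sy R)) A)).card := by
    have hSP : ∀ S ∈ conn Γ, Sy (S ∩ P) = S := by
      intro S hS
      rw [mem_conn] at hS
      ext g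
      rw [hSy, mem_inter, mem_inter]
      constructor
      · rintro (h | h)
        · exact h.1
        · have := hS.2 _ h.1
          rwa [inv_inv] at this
      · intro h
        rcases hP1 g (fun h1 => hS.1 (h1 ▸ h)) with h1 | h1
        · exact Or.inl ⟨h, h1⟩
        · exact Or.inr ⟨hS.2 g h, h1⟩
    refine Finset.card_le_card_of_injOn (fun S => S ∩ P) ?_ ?_
    · intro S hS
      rw [Finset.mem_coe, mem_filter] at hS
      rw [Finset.mem_coe, mem_filter, mem_powerset, hSP S hS.1]
      exact ⟨inter_subset_right, hS.2⟩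
    · intro S hS S' hS' h
      rw [Finset.mem_coe, mem_filter] at hS hS'
      have h' : S ∩ P = S' ∩ P := h
      rw [← hSP S hS.1, ← hSP S' hS'.1, h']
  let Q : Finset Γ → Finset Γ := fun K => (quo K) ∩ P
  let 𝒦 : Finset (Finset Γ) := (powersetCard r univ).filter
    (fun K => r * (r - 1) ≤ 4 * (Q K).card)
  -- the bad sets
  have hsub : P.powerset.filter (fun R : Finset Γ => ¬ Hadwiger (Cay (Sy R)) A) ⊆
      (P.powerset.filter (fun R : Finset Γ => 8 * R.card ≤ P.card)) ∪
      (P.powerset.filter (fun R : Finset Γ => ∃ K ∈ 𝒦, Q K ⊆ R)) := by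
    intro R hR
    rw [mem_filter] at hR
    obtain ⟨hRP, hbad⟩ := hR
    rw [mem_union, mem_filter, mem_filter]
    by_contra hcon
    push Not at hcon
    obtain ⟨g1, g2⟩ := hcon
    have g1 := g1 hRP
    have g2 := g2 hRP
    rw [mem_powerset] at hRP
    apply hbad
    intro k hk
    set H := Cay (Sy R) with hH
    have hsum : (1 / 32 : ℝ) * n ^ 2 ≤ ∑ v, ((nb H v).card : ℝ) := by
      have h1 : (P.card : ℝ) < 8 * R.card := by exact_mod_cast g1
      have h2 : n / 32 ≤ R.card := by linarith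
      have h3 : ∀ v : Γ, n / 32 ≤ ((nb H v).card : ℝ) := by
        intro v
        refine h2.trans ?_
        have h4 : R.image (fun g => v * g) ⊆ nb H v := by
          intro x hx
          obtain ⟨g, hg, rfl⟩ := mem_image.1 hx
          rw [mem_nb]
          have hg1 : g ≠ 1 := (mem_filter.1 (hRP hg)).2.1
          refine ⟨fun h => hg1 ?_, Or.inl ?_⟩
          · exact (left_eq_mul.1 h)
          · rw [inv_mul_cancel_left]
            exact (hSy R g).2 (Or.inl hg)
        have h5 := Finset.card_le_card h4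
        rw [card_image_of_injective _ (mul_right_injective v)] at h5
        exact_mod_cast h5
      calc (1 / 32 : ℝ) * n ^ 2 = ∑ v : Γ, n / 32 := by
            rw [Finset.sum_const, Finset.card_univ, nsmul_eq_mul, ← hn]; ring
        _ ≤ _ := Finset.sum_le_sum fun v _ => h3 v
    refine hadwiger_of_clique H (w := r ^ 3 - 1) hA (show (0 : ℝ) < 1 / 32 by norm_num) hsum ?_ ?_ hk
    · intro K hK
      by_contra hKr
      have hr3 : 1 ≤ r ^ 3 := Nat.one_le_pow _ _ hr0
      have hKr' : r ^ 3 ≤ K.card := by omega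
      obtain ⟨K', hK', hK'r, hK'q⟩ := exists_sidon K r hKr'
      have hQ : (quo K').card ≤ 2 * (Q K').card := by
        have h1 : quo K' ⊆ Q K' ∪ (Q K').image (fun g => g⁻¹) := by
          intro g hg
          have hg1 : g ≠ 1 := fun h => one_notMem_quo (h ▸ hg)
          rcases hP1 g hg1 with h | h
          · exact mem_union_left _ (mem_inter.2 ⟨hg, h⟩)
          · exact mem_union_right _ (mem_image.2 ⟨_, mem_inter.2 ⟨inv_mem_quo hg, h⟩, inv_inv g⟩)
        have h2 := (Finset.card_le_card h1).trans (Finset.card_union_le _ _)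
        have h3 : ((Q K').image (fun g => g⁻¹)).card ≤ (Q K').card := Finset.card_image_le
        omega
      refine g2 K' (mem_filter.2 ⟨mem_powersetCard.2 ⟨subset_univ _, hK'r⟩, by omega⟩) ?_
      intro g hg
      obtain ⟨hg1, hg2⟩ := mem_inter.1 hg
      rw [mem_quo] at hg1
      obtain ⟨x, hx, y, hy, hxy, rfl⟩ := hg1
      have h1 := hK x (hK' hx) y (hK' hy) hxy
      obtain ⟨-, h1⟩ := h1
      refine hSyP R hRP _ hg2 ?_
      rcases h1 with h1 | h1
      · exact h1
      · rw [hSy] at h1 ⊢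
        have h2 : (x⁻¹ * y)⁻¹ = y⁻¹ * x := by group
        have h3 : (y⁻¹ * x)⁻¹ = x⁻¹ * y := by group
        rw [h3] at h1
        rw [h2]
        exact h1.symm
    · have hr3 : 1 ≤ r ^ 3 := Nat.one_le_pow _ _ hr0
      have h1 : (((r ^ 3 - 1 : ℕ) : ℝ) + 1) = (r : ℝ) ^ 3 := by
        have : r ^ 3 - 1 + 1 = r ^ 3 := by omega
        exact_mod_cast this
      rw [h1, Real.log_pow]
      refine le_trans ?_ f1
      have h2 : Real.log r ≤ 2 * Real.log (8 * L + 3) := by
        rw [show 2 * Real.log (8 * L + 3) = Real.log ((8 * L + 3) ^ 2) by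
          rw [Real.log_pow]; norm_num]
        refine Real.log_le_log (by linarith) ?_
        nlinarith
      push_cast
      have h3 : (0 : ℝ) ≤ 10 ^ 7 * A := by positivity
      nlinarith
  have h1 := Finset.card_le_card hsub
  have h2 := h1.trans (Finset.card_union_le _ _)
  have h3 : ((P.powerset.filter (fun R : Finset Γ => ¬ Hadwiger (Cay (Sy R)) A)).card : ℝ) ≤
      ((P.powerset.filter (fun R : Finset Γ => 8 * R.card ≤ P.card)).card : ℝ) +
      ((P.powerset.filter (fun R : Finset Γ => ∃ K ∈ 𝒦, Q K ⊆ R)).card : ℝ) := by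
    exact_mod_cast h2
  have h4 := card_small P
  have h5 := card_contain P 𝒦 Q (M := r * (4 * L)) (by
    intro K hK
    have h6 := (mem_filter.1 hK).2
    have h7 : ((r * (r - 1) : ℕ) : ℝ) ≤ 4 * (Q K).card := by exact_mod_cast h6
    push_cast [Nat.cast_sub hr0] at h7
    have : (r : ℝ) * (16 * L) ≤ r * (r - 1) := mul_le_mul_of_nonneg_left (by linarith) (by linarith)
    linarith)
  have h6 : (𝒦.card : ℝ) ≤ Real.exp (r * L) := by
    have h8 : 𝒦.card ≤ (Fintype.card Γ).choose r := by
      refine (Finset.card_filter_le _ _).trans ?_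
      rw [card_powersetCard, Finset.card_univ]
    have h7 : (𝒦.card : ℝ) ≤ n ^ r := by
      rw [hn]; exact_mod_cast h8.trans (Nat.choose_le_pow _ _)
    refine h7.trans (le_of_eq ?_)
    rw [Real.exp_nat_mul, hL, Real.exp_log (by linarith)]
  have hl2 := Real.log_two_gt_d9
  have h7 : (𝒦.card : ℝ) * (2 ^ P.card * Real.exp (-(r * (4 * L) * Real.log 2))) ≤
      2 ^ P.card * (1 / n) := by
    calc (𝒦.card : ℝ) * (2 ^ P.card * Real.exp (-(r * (4 * L) * Real.log 2))) ≤
          Real.exp (r * L) * (2 ^ P.card * Real.exp (-(r * (4 * L) * Real.log 2))) :=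
          mul_le_mul_of_nonneg_right h6 (by positivity)
      _ = 2 ^ P.card * Real.exp (r * L + -(r * (4 * L) * Real.log 2)) := by
          rw [Real.exp_add]; ring
      _ ≤ 2 ^ P.card * Real.exp (-L) := by
          refine mul_le_mul_of_nonneg_left (Real.exp_le_exp.2 ?_) (by positivity)
          have h8 : L ≤ r * L := by nlinarith
          have h9 : r * L * (4 * Real.log 2) ≥ r * L * 2 :=
            mul_le_mul_of_nonneg_left (by linarith) (by nlinarith)
          nlinarith
      _ = 2 ^ P.card * (1 / n) := by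
          rw [Real.exp_neg, hL, Real.exp_log (by linarith), one_div]
  have h8 : Real.exp (-((P.card : ℝ) / 10)) ≤ ε / 2 := by
    refine le_trans (Real.exp_le_exp.2 ?_) f2
    rw [neg_le_neg_iff]
    linarith
  have hpow : (0 : ℝ) < 2 ^ P.card := by positivity
  calc (((conn Γ).filter (fun S : Finset Γ => ¬ Hadwiger (Cay S) A)).card : ℝ) ≤
        ((P.powerset.filter (fun R : Finset Γ => ¬ Hadwiger (Cay (Sy R)) A)).card : ℝ) := by
          exact_mod_cast hred
    _ ≤ 2 ^ P.card * Real.exp (-((P.card : ℝ) / 10)) + 2 ^ P.card * (1 / n) := by linarith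
    _ ≤ 2 ^ P.card * (ε / 2) + 2 ^ P.card * (ε / 2) := by
        refine add_le_add (mul_le_mul_of_nonneg_left h8 hpow.le)
          (mul_le_mul_of_nonneg_left f3 hpow.le)
    _ = ε * 2 ^ P.card := by ring
    _ ≤ ε * (conn Γ).card := by
        refine mul_le_mul_of_nonneg_left ?_ hε.le
        exact_mod_cast hcount

end Pool.Agent.Y395.HD
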