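import Pool.Agent.Y395.HD.Minor

/-!
Colourings of graphs with small cliques, and Hadwiger's conjecture for dense graphs with small
cliques.
-/

set_option autoImplicit false

namespace Pool.Agent.Y395.HD

open Finset

section ramsey

variable {V : Type} [DecidableEq V] (G : SimpleGraph V)

/-- Ramsey's theorem, in the form of Erdős and Szekeres. -/
theorem ramsey (n : ℕ) : ∀ (a b : ℕ), a + b = n → ∀ Y : Finset V, (b + 1) ^ a ≤ Y.card →
    (∃ I ⊆ Y, I.card = a + 1 ∧ ∀ u ∈ I, ∀ v ∈ I, ¬ G.Adj u v) ∨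
    (∃ K ⊆ Y, K.card = b + 1 ∧ ∀ u ∈ K, ∀ v ∈ K, u ≠ v → G.Adj u v) := by
  classical
  induction n with
  | zero =>
    intro a b hab Y hY
    obtain ⟨rfl, rfl⟩ : a = 0 ∧ b = 0 := by omega
    obtain ⟨v, hv⟩ := Finset.card_pos.1 (lt_of_lt_of_le Nat.zero_lt_one (by simpa using hY))
    refine Or.inl ⟨{v}, by simpa using hv, by simp, ?_⟩
    intro u hu w hw
    rw [mem_singleton] at hu hw
    subst hu hw
    exact G.irrefl
  | succ n ih =>
    intro a b hab Y hY
    have hY1 : 0 < Y.card := lt_of_lt_of_le (by positivity) hY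
    obtain ⟨v, hv⟩ := Finset.card_pos.1 hY1
    rcases a with _ | a
    · refine Or.inl ⟨{v}, by simpa using hv, by simp, ?_⟩
      intro u hu w hw
      rw [mem_singleton] at hu hw
      subst hu hw
      exact G.irrefl
    rcases b with _ | b
    · refine Or.inr ⟨{v}, by simpa using hv, by simp, ?_⟩
      intro u hu w hw
      rw [mem_singleton] at hu hw
      subst hu hw
      exact fun h => absurd rfl h
    have h1 : (b + 1 + 1) ^ a + (b + 1) ^ (a + 1) ≤ (b + 1 + 1) ^ (a + 1) := by
      have h2 : (b + 1) ^ a ≤ (b + 1 + 1) ^ a := Nat.pow_le_pow_left (by omega) a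
      have h3 : (b + 1) * (b + 1) ^ a ≤ (b + 1) * (b + 1 + 1) ^ a := Nat.mul_le_mul_left _ h2
      have h4 : (b + 1) ^ (a + 1) = (b + 1) * (b + 1) ^ a := by ring
      have h5 : (b + 1 + 1) ^ (a + 1) = (b + 1) * (b + 1 + 1) ^ a + (b + 1 + 1) ^ a := by ring
      omega
    have h2 := Finset.card_filter_add_card_filter_not (s := Y.erase v) (fun w => G.Adj v w)
    rw [Finset.card_erase_of_mem hv] at h2
    by_cases hM : (b + 1 + 1) ^ a ≤ ((Y.erase v).filter (fun w => ¬ G.Adj v w)).card
    · rcases ih a (b + 1) (by omega) _ hM with ⟨I, hI, hIc, hI2⟩ | ⟨K, hK, hKc, hK2⟩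
      · left
        have hvI : v ∉ I := fun h => by
          have := hI h
          rw [mem_filter, mem_erase] at this
          exact this.1.1 rfl
        refine ⟨insert v I, ?_, by rw [Finset.card_insert_of_notMem hvI, hIc], ?_⟩
        · intro x hx
          rcases mem_insert.1 hx with rfl | hx
          · exact hv
          · exact mem_of_mem_erase (mem_filter.1 (hI hx)).1
        · intro x hx y hy
          rcases mem_insert.1 hx with hxv | hx <;> rcases mem_insert.1 hy with hyv | hy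
          · rw [hxv, hyv]; exact G.irrefl
          · rw [hxv]; exact (mem_filter.1 (hI hy)).2
          · rw [hyv]; exact fun h => (mem_filter.1 (hI hx)).2 h.symm
          · exact hI2 x hx y hy
      · exact Or.inr ⟨K, hK.trans ((filter_subset _ _).trans (erase_subset _ _)), hKc, hK2⟩
    · have hN : (b + 1) ^ (a + 1) ≤ ((Y.erase v).filter (fun w => G.Adj v w)).card := by omega
      rcases ih (a + 1) b (by omega) _ hN with ⟨I, hI, hIc, hI2⟩ | ⟨K, hK, hKc, hK2⟩
      · exact Or.inl ⟨I, hI.trans ((filter_subset _ _).trans (erase_subset _ _)), hIc, hI2⟩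
      · right
        have hvK : v ∉ K := fun h => by
          have := hK h
          rw [mem_filter, mem_erase] at this
          exact this.1.1 rfl
        refine ⟨insert v K, ?_, by rw [Finset.card_insert_of_notMem hvK, hKc], ?_⟩
        · intro x hx
          rcases mem_insert.1 hx with rfl | hx
          · exact hv
          · exact mem_of_mem_erase (mem_filter.1 (hK hx)).1
        · intro x hx y hy hxy
          rcases mem_insert.1 hx with hxv | hx <;> rcases mem_insert.1 hy with hyv | hy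
          · exact absurd (hxv.trans hyv.symm) hxy
          · rw [hxv]; exact (mem_filter.1 (hK hy)).2
          · rw [hyv]; exact (mem_filter.1 (hK hx)).2.symm
          · exact hK2 x hx y hy hxy

end ramsey

section colour

variable {V : Type} [Fintype V] [DecidableEq V] (G : SimpleGraph V)

/-- greedy colouring by independent sets -/
theorem colorable_of_indep {s y : ℕ} (hs : 1 ≤ s)
    (h : ∀ Y : Finset V, y ≤ Y.card → ∃ I ⊆ Y, I.card = s ∧ ∀ u ∈ I, ∀ v ∈ I, ¬ G.Adj u v) :
    G.Colorable (Fintype.card V / s + y) := by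
  classical
  have key : ∀ m : ℕ, ∀ Y : Finset V, Y.card = m → ∃ f : V → ℕ,
      (∀ v ∈ Y, f v < m / s + y) ∧ ∀ u ∈ Y, ∀ v ∈ Y, G.Adj u v → f u ≠ f v := by
    intro m
    induction m using Nat.strong_induction_on with
    | _ m ih =>
      intro Y hY
      by_cases hm : m < y
      · refine ⟨fun v => if h : v ∈ Y then (Y.equivFin ⟨v, h⟩ : ℕ) else 0, ?_, ?_⟩
        · intro v hv
          simp only [hv, dif_pos]
          have h1 := (Y.equivFin ⟨v, hv⟩).2
          have h2 : Y.card ≤ m / s + y := by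
            rw [hY]; exact hm.le.trans (Nat.le_add_left _ _)
          exact lt_of_lt_of_le h1 h2
        · intro u hu v hv huv heq
          simp only [hu, hv, dif_pos] at heq
          have h1 := Y.equivFin.injective (Fin.ext heq)
          exact huv.ne (congrArg Subtype.val h1)
      · obtain ⟨I, hI, hIc, hI2⟩ := h Y (by omega)
        have h1 : s ≤ m := by rw [← hIc, ← hY]; exact Finset.card_le_card hI
        obtain ⟨f, hf1, hf2⟩ := ih (m - s) (by omega) (Y \ I) (by
          rw [Finset.card_sdiff_of_subset hI, hY, hIc])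
        have h2 : m / s = (m - s) / s + 1 := by
          have := Nat.add_div_right (m - s) (show 0 < s by omega)
          rwa [Nat.sub_add_cancel h1] at this
        refine ⟨fun v => if v ∈ I then (m - s) / s + y else f v, ?_, ?_⟩
        · intro v hv
          by_cases hvI : v ∈ I
          · simp only [hvI, if_true]
            omega
          · simp only [hvI, if_false]
            have := hf1 v (mem_sdiff.2 ⟨hv, hvI⟩)
            omega
        · intro u hu v hv huv
          by_cases huI : u ∈ I <;> by_cases hvI : v ∈ I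
          · exact absurd huv (hI2 u huI v hvI)
          · simp only [huI, hvI, if_true, if_false]
            have := hf1 v (mem_sdiff.2 ⟨hv, hvI⟩)
            omega
          · simp only [huI, hvI, if_true, if_false]
            have := hf1 u (mem_sdiff.2 ⟨hu, huI⟩)
            omega
          · simp only [huI, hvI, if_false]
            exact hf2 u (mem_sdiff.2 ⟨hu, huI⟩) v (mem_sdiff.2 ⟨hv, hvI⟩) huv
  obtain ⟨f, hf1, hf2⟩ := key _ univ rfl
  rw [Finset.card_univ] at hf1
  exact ⟨SimpleGraph.Coloring.mk (fun v => (⟨f v, hf1 v (mem_univ _)⟩ :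
    Fin (Fintype.card V / s + y))) (fun {u v} huv heq =>
      hf2 u (mem_univ _) v (mem_univ _) huv (congrArg Fin.val heq))⟩

/-- A graph on `n` vertices all of whose cliques have at most `w` vertices can be coloured with
`2 n log (w + 1) / log n + sqrt n + 1` colours. -/
theorem colorable_of_clique {w : ℕ} (hw : 1 ≤ w) (hn : 2 ≤ Fintype.card V)
    (hcl : ∀ K : Finset V, (∀ u ∈ K, ∀ v ∈ K, u ≠ v → G.Adj u v) → K.card ≤ w) :
    ∃ K : ℕ, G.Colorable K ∧ (K : ℝ) ≤ 2 * Fintype.card V * Real.log (w + 1) /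
      Real.log (Fintype.card V) + Real.sqrt (Fintype.card V) + 1 := by
  set n : ℝ := (Fintype.card V : ℝ) with hn'
  have hn2 : (2 : ℝ) ≤ n := by rw [hn']; exact_mod_cast hn
  have hL : 0 < Real.log n := Real.log_pos (by linarith)
  have hw1 : (1 : ℝ) ≤ w := by exact_mod_cast hw
  have hlw : 0 < Real.log (w + 1) := Real.log_pos (by linarith)
  set a : ℕ := ⌊Real.log n / (2 * Real.log (w + 1))⌋₊ with ha
  have ha1 : (a : ℝ) * Real.log (w + 1) ≤ Real.log n / 2 := by
    have h1 := Nat.floor_le (show 0 ≤ Real.log n / (2 * Real.log (w + 1)) by positivity)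
    rw [← ha] at h1
    calc (a : ℝ) * Real.log (w + 1) ≤ Real.log n / (2 * Real.log (w + 1)) * Real.log (w + 1) :=
          mul_le_mul_of_nonneg_right h1 hlw.le
      _ = Real.log n / 2 := by field_simp
  have ha2 : Real.log n / (2 * Real.log (w + 1)) < a + 1 := Nat.lt_floor_add_one _
  have ha3 : ((w + 1 : ℝ)) ^ a ≤ Real.sqrt n := by
    rw [Real.sqrt_eq_rpow, Real.rpow_def_of_pos (by linarith), ← Real.rpow_natCast,
      Real.rpow_def_of_pos (by linarith)]
    refine Real.exp_le_exp.2 ?_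
    linarith
  have hcol := colorable_of_indep G (s := a + 1) (y := ⌈Real.sqrt n⌉₊) (by omega) (by
    intro Y hY
    have h1 : (w + 1) ^ a ≤ Y.card := by
      have h2 : Real.sqrt n ≤ (Y.card : ℝ) := (Nat.le_ceil _).trans (by exact_mod_cast hY)
      have h3 := ha3.trans h2
      exact_mod_cast h3
    rcases ramsey G _ a w rfl Y h1 with h4 | ⟨K, -, hKc, hK⟩
    · exact h4
    · have := hcl K hK
      omega)
  refine ⟨_, hcol, ?_⟩
  push_cast
  have h1 : ((Fintype.card V / (a + 1) : ℕ) : ℝ) ≤ 2 * n * Real.log (w + 1) / Real.log n := by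
    have h2 : ((Fintype.card V / (a + 1) : ℕ) : ℝ) ≤ n / ((a + 1 : ℕ) : ℝ) := Nat.cast_div_le
    refine h2.trans ?_
    push_cast
    rw [div_le_div_iff₀ (by positivity) hL]
    have h3 : Real.log n < (a + 1) * (2 * Real.log (w + 1)) := by
      rwa [div_lt_iff₀ (by positivity)] at ha2
    have h4 : n * Real.log n ≤ n * ((a + 1) * (2 * Real.log (w + 1))) :=
      mul_le_mul_of_nonneg_left h3.le (by linarith)
    linarith
  have h2 : (⌈Real.sqrt n⌉₊ : ℝ) ≤ Real.sqrt n + 1 := (Nat.ceil_lt_add_one (Real.sqrt_nonneg _)).le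
  linarith

/-- The minor of order `q ^ 4 n / sqrt (log n)`. -/
theorem minor_log {q : ℝ} (hq : 0 < q) (hq1 : q ≤ 1) (hn : 2 ≤ Fintype.card V)
    (h : q * (Fintype.card V : ℝ) ^ 2 ≤ ∑ v, ((nb G v).card : ℝ))
    (hL : 8 ≤ q * Real.sqrt (Real.log (Fintype.card V))) {t : ℕ}
    (ht : (t : ℝ) ≤ q ^ 4 * Fintype.card V /
      (10 ^ 6 * Real.sqrt (Real.log (Fintype.card V)))) :
    HasCliqueMinor G t := by
  set n : ℝ := (Fintype.card V : ℝ) with hn'
  have hn2 : (2 : ℝ) ≤ n := by rw [hn']; exact_mod_cast hn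
  set L : ℝ := Real.sqrt (Real.log n) with hLdef
  have hlog : 0 ≤ Real.log n := Real.log_nonneg (by linarith)
  have hL2 : L ^ 2 = Real.log n := Real.sq_sqrt hlog
  have hL0 : 0 ≤ L := Real.sqrt_nonneg _
  have hL8 : 8 ≤ L := by nlinarith
  set s : ℕ := ⌈32 * L / q⌉₊ with hs
  have hs1 : 32 * L / q ≤ s := Nat.le_ceil _
  have hs2 : (s : ℝ) ≤ 32 * L / q + 1 := (Nat.ceil_lt_add_one (by positivity)).le
  have hs1' : 32 * L ≤ s * q := by rwa [div_le_iff₀ hq] at hs1
  have hs2' : (s : ℝ) * q ≤ 33 * L := by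
    have h1 : (s : ℝ) * q ≤ (32 * L / q + 1) * q := mul_le_mul_of_nonneg_right hs2 hq.le
    have h2 : (32 * L / q + 1) * q = 32 * L + q := by field_simp
    linarith
  have hs0 : (0 : ℝ) < s := by
    have : 0 < (s : ℝ) * q := by nlinarith
    exact pos_of_mul_pos_left this hq.le
  have hs0' : 1 ≤ s := by exact_mod_cast hs0
  have ht' : (t : ℝ) * (10 ^ 6 * L) ≤ q ^ 4 * n := by
    rwa [le_div_iff₀ (by positivity)] at ht
  have ht0 : (0 : ℝ) ≤ t := Nat.cast_nonneg _
  refine minor_of_dense G hq hq1 (by omega) h (s := s) (t := t) hs0' ?_ ?_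
  · -- `12 s t ≤ q ^ 3 n / 1024`
    have h1 : (12 * s * t : ℝ) * q ≤ q ^ 3 / 1024 * n * q := by
      have h2 : (12 * s * t : ℝ) * q = 12 * (s * q) * t := by ring
      have h3 : 12 * (s * q) * t ≤ 12 * (33 * L) * t :=
        mul_le_mul_of_nonneg_right (by linarith) ht0
      have h4 : 12 * (33 * L) * t ≤ (t * (10 ^ 6 * L)) / 1024 := by
        have : 0 ≤ (t : ℝ) * L := by positivity
        nlinarith
      have h5 : q ^ 3 / 1024 * n * q = (q ^ 4 * n) / 1024 := by ring
      rw [h2, h5]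
      linarith
    exact le_of_mul_le_mul_right h1 hq
  · -- the probability
    have hp0 : 0 ≤ 1 - q ^ 2 / 128 := by nlinarith
    have h1 : (1 - q ^ 2 / 128) ^ s ≤ Real.exp (-(q ^ 2 / 128 * s)) := by
      have h2 : 1 - q ^ 2 / 128 ≤ Real.exp (-(q ^ 2 / 128)) := by
        have := Real.add_one_le_exp (-(q ^ 2 / 128))
        linarith
      have h3 := pow_le_pow_left₀ hp0 h2 s
      rw [← Real.exp_nat_mul] at h3
      refine h3.trans (le_of_eq ?_)
      congr 1; ring
    have h2 : (2 : ℝ) ≤ Real.exp (q ^ 2 / 256 * s) := by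
      have h3 : 1 ≤ q ^ 2 / 256 * s := by
        have h4 : q ^ 2 / 256 * s = q * (s * q) / 256 := by ring
        rw [h4]
        have h5 : q * (32 * L) ≤ q * (s * q) := mul_le_mul_of_nonneg_left hs1' hq.le
        have h6 : (1 : ℝ) ≤ q * (32 * L) / 256 := by linarith
        exact h6.trans (by linarith)
      have h4 := Real.add_one_le_exp (q ^ 2 / 256 * (s : ℝ))
      linarith
    have h3 : 2 * (1 - q ^ 2 / 128) ^ s ≤ Real.exp (-(q ^ 2 / 256 * s)) := by
      calc 2 * (1 - q ^ 2 / 128) ^ s ≤ Real.exp (q ^ 2 / 256 * s) *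
            Real.exp (-(q ^ 2 / 128 * s)) :=
            mul_le_mul h2 h1 (pow_nonneg hp0 s) (Real.exp_pos _).le
        _ = Real.exp (-(q ^ 2 / 256 * s)) := by
            rw [← Real.exp_add]; congr 1; ring
    have h4 : (2 * (1 - q ^ 2 / 128) ^ s) ^ s ≤ Real.exp (-(4 * Real.log n)) := by
      have h5 := pow_le_pow_left₀ (by positivity) h3 s
      rw [← Real.exp_nat_mul] at h5
      refine h5.trans (Real.exp_le_exp.2 ?_)
      have h6 : (s : ℝ) * -(q ^ 2 / 256 * s) = -((s * q) ^ 2 / 256) := by ring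
      rw [h6, neg_le_neg_iff, ← hL2]
      have h7 : (32 * L) ^ 2 ≤ (s * q) ^ 2 := pow_le_pow_left₀ (by positivity) hs1' 2
      nlinarith
    have h5 : Real.exp (-(4 * Real.log n)) = (n ^ 4)⁻¹ := by
      rw [Real.exp_neg]
      congr 1
      have : 4 * Real.log n = Real.log (n ^ 4) := by
        rw [Real.log_pow]; norm_num
      rw [this, Real.exp_log (by positivity)]
    rw [h5] at h4
    have h6 : (t : ℝ) ≤ n := by
      have h7 : q ^ 4 ≤ 1 := pow_le_one₀ hq.le hq1
      have h8 : (t : ℝ) * 1 ≤ t * (10 ^ 6 * L) := mul_le_mul_of_nonneg_left (by linarith) ht0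
      have h9 : q ^ 4 * n ≤ 1 * n := mul_le_mul_of_nonneg_right h7 (by linarith)
      linarith
    calc (t : ℝ) * (2 * (1 - q ^ 2 / 128) ^ s) ^ s ≤ n * (n ^ 4)⁻¹ :=
          mul_le_mul h6 h4 (by positivity) (by linarith)
      _ < 1 := by
          rw [← div_eq_mul_inv, div_lt_one (by positivity)]
          have : 1 < n ^ 3 := one_lt_pow₀ (by linarith) (by norm_num)
          nlinarith

/-- **Hadwiger's conjecture for dense graphs with small cliques.** -/
theorem hadwiger_of_clique {w A : ℕ} (hA : 1 ≤ A) {q : ℝ} (hq : 0 < q)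
    (h : q * (Fintype.card V : ℝ) ^ 2 ≤ ∑ v, ((nb G v).card : ℝ))
    (hcl : ∀ K : Finset V, (∀ u ∈ K, ∀ v ∈ K, u ≠ v → G.Adj u v) → K.card ≤ w)
    (hq4 : 10 ^ 7 * (A : ℝ) * Real.log (w + 1) ≤ q ^ 4 * Real.sqrt (Real.log (Fintype.card V)))
    {k : ℕ} (hk : ¬ G.Colorable k) : HasCliqueMinor G (A * (k + 1)) := by
  set n : ℝ := (Fintype.card V : ℝ) with hn'
  have hA1 : (1 : ℝ) ≤ A := by exact_mod_cast hA
  -- `V` is not empty
  have hV : 0 < Fintype.card V := by
    rcases Nat.eq_zero_or_pos (Fintype.card V) with h0 | h0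
    · exfalso
      apply hk
      have : IsEmpty V := Fintype.card_eq_zero_iff.1 h0
      exact SimpleGraph.Colorable.of_isEmpty k
    · exact h0
  have hw : 1 ≤ w := by
    obtain ⟨v⟩ : Nonempty V := Fintype.card_pos_iff.1 hV
    have := hcl {v} (by
      intro x hx y hy hxy
      rw [mem_singleton] at hx hy
      exact absurd (hx.trans hy.symm) hxy)
    simpa using this
  have hw1 : (1 : ℝ) ≤ w := by exact_mod_cast hw
  have hlw : 1 / 2 ≤ Real.log (w + 1) := by
    have h1 : Real.log 2 ≤ Real.log (w + 1) := Real.log_le_log (by norm_num) (by linarith)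
    have := Real.log_two_gt_d9
    linarith
  have hn0 : 0 < n := by rw [hn']; exact_mod_cast hV
  have hn1 : (1 : ℝ) ≤ n := by rw [hn']; exact_mod_cast hV
  have hq1 : q ≤ 1 := by
    have h1 : ∑ v, ((nb G v).card : ℝ) ≤ n * n := by
      have h2 : ∑ v, ((nb G v).card : ℝ) ≤ ∑ v : V, n := by
        refine Finset.sum_le_sum fun v _ => ?_
        rw [hn']
        exact_mod_cast Finset.card_le_univ _
      rwa [Finset.sum_const, Finset.card_univ, nsmul_eq_mul, ← hn'] at h2
    have h2 : q * n ^ 2 ≤ 1 * n ^ 2 := by nlinarith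
    exact le_of_mul_le_mul_right h2 (by positivity)
  set L : ℝ := Real.sqrt (Real.log n) with hLdef
  have hL0 : 0 ≤ L := Real.sqrt_nonneg _
  have hlog : 0 ≤ Real.log n := Real.log_nonneg hn1
  have hL2 : L ^ 2 = Real.log n := Real.sq_sqrt hlog
  have hq4' : q ^ 4 ≤ q := by
    have : q ^ 3 ≤ 1 := pow_le_one₀ hq.le hq1
    nlinarith
  have h0 : 10 ^ 7 * (A : ℝ) * Real.log (w + 1) ≥ 10 ^ 7 * 1 * (1 / 2) :=
    mul_le_mul (mul_le_mul_of_nonneg_left hA1 (by norm_num)) hlw (by norm_num) (by positivity)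
  have hL8 : 8 ≤ q * L := by
    have : q ^ 4 * L ≤ q * L := mul_le_mul_of_nonneg_right hq4' hL0
    linarith
  have hLpos : 0 < L := by
    rcases hL0.eq_or_lt with h1 | h1
    · rw [← h1, mul_zero] at hL8; norm_num at hL8
    · exact h1
  have hn2 : 2 ≤ Fintype.card V := by
    by_contra hcon
    have h1 : Fintype.card V = 1 := by omega
    have h2 : n = 1 := by rw [hn', h1]; norm_num
    rw [h2, Real.log_one] at hL2
    nlinarith
  obtain ⟨K, hK, hKb⟩ := colorable_of_clique G hw hn2 hcl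
  rw [← hn'] at hKb
  have hkK : k + 1 ≤ K := by
    by_contra hcon
    exact hk (hK.mono (by omega))
  refine (minor_log G hq hq1 hn2 h hL8 (t := A * K) ?_).mono (Nat.mul_le_mul_left A hkK)
  push_cast
  rw [← hn', ← hLdef, le_div_iff₀ (by positivity)]
  -- the final inequality
  have hS : Real.sqrt n ^ 2 = n := Real.sq_sqrt hn0.le
  have hS1 : 1 ≤ Real.sqrt n := by
    rw [← Real.sqrt_one]; exact Real.sqrt_le_sqrt hn1
  have hLS : L ^ 2 ≤ 2 * Real.sqrt n := by
    rw [hL2]
    have h1 : Real.log n = 2 * Real.log (Real.sqrt n) := by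
      rw [Real.log_sqrt hn0.le]; ring
    have h2 := Real.log_le_sub_one_of_pos (show 0 < Real.sqrt n by linarith)
    rw [h1]; linarith
  have hA2 : 10 ^ 6 * (A : ℝ) ≤ (q ^ 4 * L) / 5 := by
    have h1 : 10 ^ 7 * (A : ℝ) * (1 / 2) ≤ 10 ^ 7 * (A : ℝ) * Real.log (w + 1) :=
      mul_le_mul_of_nonneg_left hlw (by positivity)
    linarith
  have hq40 : 0 < q ^ 4 := by positivity
  have hAK : (A : ℝ) * K ≤ A * (2 * n * Real.log (w + 1) / Real.log n) + A * (2 * Real.sqrt n) := by
    rw [← mul_add]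
    refine mul_le_mul_of_nonneg_left ?_ (by linarith)
    linarith
  have hT1 : A * (2 * n * Real.log (w + 1) / Real.log n) * (10 ^ 6 * L) ≤ (q ^ 4 * n) / 5 := by
    rw [← hL2]
    have h1 : A * (2 * n * Real.log (w + 1) / L ^ 2) * (10 ^ 6 * L) =
        n / 5 * (10 ^ 7 * (A : ℝ) * Real.log (w + 1)) / L := by
      field_simp
      norm_num
    rw [h1, div_le_iff₀ hLpos]
    have h2 : n / 5 * (10 ^ 7 * (A : ℝ) * Real.log (w + 1)) ≤ n / 5 * (q ^ 4 * L) :=
      mul_le_mul_of_nonneg_left hq4 (by positivity)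
    linarith
  have hT2 : A * (2 * Real.sqrt n) * (10 ^ 6 * L) ≤ 4 / 5 * (q ^ 4 * n) := by
    have h1 : A * (2 * Real.sqrt n) * (10 ^ 6 * L) = (10 ^ 6 * (A : ℝ)) * (2 * Real.sqrt n * L) := by
      ring
    rw [h1]
    have h2 : (10 ^ 6 * (A : ℝ)) * (2 * Real.sqrt n * L) ≤ (q ^ 4 * L) / 5 *
        (2 * Real.sqrt n * L) := mul_le_mul_of_nonneg_right hA2 (by positivity)
    have h3 : (q ^ 4 * L) / 5 * (2 * Real.sqrt n * L) = 2 / 5 * q ^ 4 * Real.sqrt n * L ^ 2 := by
      ring
    have h4 : 2 / 5 * q ^ 4 * Real.sqrt n * L ^ 2 ≤ 2 / 5 * q ^ 4 * Real.sqrt n *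
        (2 * Real.sqrt n) := mul_le_mul_of_nonneg_left hLS (by positivity)
    have h5 : 2 / 5 * q ^ 4 * Real.sqrt n * (2 * Real.sqrt n) =
        4 / 5 * (q ^ 4 * Real.sqrt n ^ 2) := by ring
    rw [hS] at h5
    linarith
  have hfin : (A : ℝ) * K * (10 ^ 6 * L) ≤ (A * (2 * n * Real.log (w + 1) / Real.log n) +
      A * (2 * Real.sqrt n)) * (10 ^ 6 * L) := mul_le_mul_of_nonneg_right hAK (by positivity)
  rw [add_mul] at hfin
  linarith

end colour

end Pool.Agent.Y395.HD
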