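import Mathlib

/-!
Clique minors in dense graphs: a graph with `n` vertices and at least `q n ^ 2 / 2` edges has a
`K_t` minor with `t` of order `q ^ 4 n / sqrt (log n)`.
-/

set_option autoImplicit false

namespace Pool.Agent.Y395.HD

open Finset

variable {V : Type} [Fintype V] [DecidableEq V] (G : SimpleGraph V)

open Classical in
/-- the neighbours of `v` -/
noncomputable def nb (v : V) : Finset V := univ.filter (fun w => G.Adj v w)

theorem mem_nb {v w : V} : w ∈ nb G v ↔ G.Adj v w := by simp [nb]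

/-- the number of common neighbours -/
noncomputable def cod (u v : V) : ℕ := (nb G u ∩ nb G v).card

open Classical in
/-- Dependent random choice: a set `U` in which any two vertices have many well connected
partners. -/
theorem exists_core {q : ℝ} (hq : 0 < q) (hV : 0 < Fintype.card V)
    (h : q * (Fintype.card V : ℝ) ^ 2 ≤ ∑ v, ((nb G v).card : ℝ)) :
    ∃ U0 U : Finset V, q * (Fintype.card V : ℝ) / 2 ≤ U0.card ∧ (U0.card : ℝ) / 2 ≤ U.card ∧
      ∀ u ∈ U, ∀ v ∈ U, (U0.card : ℝ) / 2 ≤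
        (U0.filter (fun x => q ^ 2 / 32 * (Fintype.card V : ℝ) ≤ cod G u x ∧
          q ^ 2 / 32 * (Fintype.card V : ℝ) ≤ cod G v x)).card := by
  set n : ℝ := (Fintype.card V : ℝ) with hn
  have hn0 : 0 < n := by rw [hn]; exact_mod_cast hV
  set δ : ℝ := q ^ 2 / 32 with hδ
  let T : Finset (V × V) := univ.filter (fun p => (cod G p.1 p.2 : ℝ) < δ * n)
  let bad : V → ℕ := fun w => (T.filter (fun p => p.1 ∈ nb G w ∧ p.2 ∈ nb G w)).card
  have hbad : ∑ w, (bad w : ℝ) ≤ δ * n ^ 3 := by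
    have h1 := Finset.sum_card_bipartiteAbove_eq_sum_card_bipartiteBelow
      (s := (univ : Finset V)) (t := T) (fun w p => p.1 ∈ nb G w ∧ p.2 ∈ nb G w)
    have h2 : ∑ w, (bad w : ℝ) = ((∑ w, bad w : ℕ) : ℝ) := by push_cast; rfl
    rw [h2]
    have h3 : ∑ w, bad w = ∑ p ∈ T, cod G p.1 p.2 := by
      have h4 : ∑ w, bad w = ∑ w, (Finset.bipartiteAbove
        (fun (w : V) (p : V × V) => p.1 ∈ nb G w ∧ p.2 ∈ nb G w) T w).card := rfl
      rw [h4, h1]
      refine Finset.sum_congr rfl ?_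
      intro p _
      unfold cod
      congr 1
      ext w
      simp only [bipartiteBelow, mem_filter, mem_univ, true_and, mem_inter, mem_nb]
      exact ⟨fun h => ⟨h.1.symm, h.2.symm⟩, fun h => ⟨h.1.symm, h.2.symm⟩⟩
    rw [h3]
    push_cast
    calc ∑ p ∈ T, (cod G p.1 p.2 : ℝ) ≤ ∑ p ∈ T, δ * n := by
          refine Finset.sum_le_sum ?_
          intro p hp
          exact (mem_filter.1 hp).2.le
      _ = T.card * (δ * n) := by rw [Finset.sum_const, nsmul_eq_mul]
      _ ≤ n ^ 2 * (δ * n) := by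
          have h5 : (T.card : ℝ) ≤ n ^ 2 := by
            have := Finset.card_le_univ T
            rw [Fintype.card_prod] at this
            rw [hn, sq]
            exact_mod_cast this
          have : 0 ≤ δ * n := by positivity
          exact mul_le_mul_of_nonneg_right h5 this
      _ = δ * n ^ 3 := by ring
  have hsq : q ^ 2 * n ^ 3 ≤ ∑ w, ((nb G w).card : ℝ) ^ 2 := by
    have h1 := sq_sum_le_card_mul_sum_sq (s := (univ : Finset V))
      (f := fun w => ((nb G w).card : ℝ))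
    rw [Finset.card_univ, ← hn] at h1
    have h2 : (q * n ^ 2) ^ 2 ≤ (∑ w, ((nb G w).card : ℝ)) ^ 2 :=
      pow_le_pow_left₀ (by positivity) h 2
    have h3 : n * (q ^ 2 * n ^ 3) ≤ n * ∑ w, ((nb G w).card : ℝ) ^ 2 := by
      calc n * (q ^ 2 * n ^ 3) = (q * n ^ 2) ^ 2 := by ring
        _ ≤ _ := h2
        _ ≤ _ := h1
    exact le_of_mul_le_mul_left h3 hn0
  obtain ⟨w, -, hw⟩ : ∃ w ∈ (univ : Finset V), q ^ 2 * n ^ 2 / 2 ≤
      ((nb G w).card : ℝ) ^ 2 - 16 * bad w := by
    refine Finset.exists_le_of_sum_le (f := fun _ => q ^ 2 * n ^ 2 / 2) ?_ ?_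
    · haveI : Nonempty V := Fintype.card_pos_iff.1 hV
      exact univ_nonempty
    · rw [Finset.sum_const, Finset.card_univ, nsmul_eq_mul, ← hn, Finset.sum_sub_distrib,
        ← Finset.mul_sum]
      have : n * (q ^ 2 * n ^ 2 / 2) = q ^ 2 * n ^ 3 - 16 * (δ * n ^ 3) := by
        rw [hδ]; ring
      linarith
  set U0 := nb G w with hU0
  have hb0 : (0 : ℝ) ≤ bad w := Nat.cast_nonneg _
  have h1 : q * n / 2 ≤ U0.card := by
    by_contra hcon
    push Not at hcon
    have h2 : (U0.card : ℝ) ^ 2 < (q * n / 2) ^ 2 :=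
      pow_lt_pow_left₀ hcon (Nat.cast_nonneg _) (by norm_num)
    nlinarith
  have hU0pos : (0 : ℝ) < U0.card := lt_of_lt_of_le (by positivity) h1
  have h2 : 16 * (bad w : ℝ) ≤ (U0.card : ℝ) ^ 2 := by
    have : 0 ≤ q ^ 2 * n ^ 2 / 2 := by positivity
    linarith
  let Bd : V → Finset V := fun u => U0.filter (fun x => (cod G u x : ℝ) < δ * n)
  let U : Finset V := U0.filter (fun u => 4 * ((Bd u).card : ℝ) ≤ U0.card)
  have h3 : ((U0 \ U).card : ℝ) * (U0.card / 4) ≤ bad w := by
    have h4 : ∑ u ∈ U0 \ U, (Bd u).card ≤ bad w := by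
      have h5 : bad w = ∑ u ∈ U0, (Bd u).card := by
        have h6 : T.filter (fun p => p.1 ∈ nb G w ∧ p.2 ∈ nb G w) =
            (U0 ×ˢ U0).filter (fun p => (cod G p.1 p.2 : ℝ) < δ * n) := by
          ext p
          simp only [T, mem_filter, mem_univ, true_and, mem_product, hU0]
          tauto
        simp only [bad]
        rw [h6, Finset.card_filter, Finset.sum_product]
        refine Finset.sum_congr rfl ?_
        intro u _
        simp only [Bd]
        rw [Finset.card_filter]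
      rw [h5]
      exact Finset.sum_le_sum_of_subset Finset.sdiff_subset
    have h5 : ((∑ u ∈ U0 \ U, (Bd u).card : ℕ) : ℝ) ≤ bad w := by exact_mod_cast h4
    refine le_trans ?_ h5
    push_cast
    rw [← nsmul_eq_mul, ← Finset.sum_const]
    refine Finset.sum_le_sum ?_
    intro u hu
    rw [mem_sdiff, mem_filter, not_and, not_le] at hu
    have := hu.2 hu.1
    linarith
  have h4 : ((U0 \ U).card : ℝ) ≤ U0.card / 4 := by
    have h5 : ((U0 \ U).card : ℝ) * (U0.card / 4) ≤ (U0.card / 4) * (U0.card / 4) := by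
      nlinarith
    exact le_of_mul_le_mul_right h5 (by positivity)
  have hUsub : U ⊆ U0 := Finset.filter_subset _ _
  have h5 : ((U0 \ U).card : ℝ) = U0.card - U.card := by
    rw [Finset.card_sdiff_of_subset hUsub, Nat.cast_sub (Finset.card_le_card hUsub)]
  refine ⟨U0, U, h1, by linarith, ?_⟩
  intro u hu v hv
  have hu1 : 4 * ((Bd u).card : ℝ) ≤ U0.card := (mem_filter.1 hu).2
  have hv1 : 4 * ((Bd v).card : ℝ) ≤ U0.card := (mem_filter.1 hv).2
  have h6 : U0 ⊆ (U0.filter (fun x => δ * n ≤ cod G u x ∧ δ * n ≤ cod G v x)) ∪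
      (Bd u ∪ Bd v) := by
    intro x hx
    simp only [mem_union, mem_filter, Bd, hx, true_and]
    by_cases h7 : δ * n ≤ cod G u x
    · by_cases h8 : δ * n ≤ cod G v x
      · exact Or.inl ⟨h7, h8⟩
      · exact Or.inr (Or.inr (not_le.1 h8))
    · exact Or.inr (Or.inl (not_le.1 h7))
  have h7 := Finset.card_le_card h6
  have h8 := Finset.card_union_le (U0.filter (fun x => δ * n ≤ cod G u x ∧ δ * n ≤ cod G v x))
    (Bd u ∪ Bd v)
  have h9 := Finset.card_union_le (Bd u) (Bd v)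
  have h10 : (U0.card : ℝ) ≤
      (U0.filter (fun x => δ * n ≤ cod G u x ∧ δ * n ≤ cod G v x)).card +
      ((Bd u).card + (Bd v).card) := by exact_mod_cast (by omega :
        U0.card ≤ (U0.filter (fun x => δ * n ≤ cod G u x ∧ δ * n ≤ cod G v x)).card +
        ((Bd u).card + (Bd v).card))
  linarith

/-- picking an element outside a small set -/
theorem exists_avoid {S X : Finset V} (h : (X.card : ℝ) < S.card) : ∃ x ∈ S, x ∉ X := by
  by_contra hcon
  push Not at hcon
  have := Finset.card_le_card hcon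
  have h2 : (S.card : ℝ) ≤ X.card := by exact_mod_cast this
  linarith

open Classical in
/-- short walks between vertices of the core avoiding a small set -/
theorem exists_walk {q : ℝ} {U0 U X : Finset V}
    (hU : ∀ u ∈ U, ∀ v ∈ U, (U0.card : ℝ) / 2 ≤
        (U0.filter (fun x => q ^ 2 / 32 * (Fintype.card V : ℝ) ≤ cod G u x ∧
          q ^ 2 / 32 * (Fintype.card V : ℝ) ≤ cod G v x)).card)
    (hX1 : (X.card : ℝ) < U0.card / 2) (hX2 : (X.card : ℝ) < q ^ 2 / 32 * (Fintype.card V : ℝ))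
    {u a : V} (hu : u ∈ U) (ha : a ∈ U) (huX : u ∉ X) (haX : a ∉ X) :
    ∃ p : G.Walk u a, p.length ≤ 4 ∧ ∀ z ∈ p.support, z ∉ X := by
  obtain ⟨x, hx, hxX⟩ := exists_avoid (lt_of_lt_of_le hX1 (hU u hu a ha))
  rw [mem_filter] at hx
  obtain ⟨-, hx1, hx2⟩ := hx
  obtain ⟨y, hy, hyX⟩ := exists_avoid (lt_of_lt_of_le hX2 hx1)
  obtain ⟨z, hz, hzX⟩ := exists_avoid (lt_of_lt_of_le hX2 hx2)
  rw [mem_inter, mem_nb, mem_nb] at hy hz
  refine ⟨.cons hy.1 (.cons hy.2.symm (.cons hz.2 (.cons hz.1.symm .nil))), by simp, ?_⟩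
  intro v hv
  simp only [SimpleGraph.Walk.support_cons, SimpleGraph.Walk.support_nil, List.mem_cons,
    List.not_mem_nil, or_false] at hv
  rcases hv with rfl | rfl | rfl | rfl | rfl <;> assumption

/-- Union of connected sets which contain `a`. -/
theorem connected_biUnion {ι : Type} [Fintype ι] (a : V) (P : ι → Finset V) (hne : Nonempty ι)
    (ha : ∀ i, a ∈ P i) (hP : ∀ i, (G.induce (P i : Set V)).Connected) :
    (G.induce ((univ.biUnion P : Finset V) : Set V)).Connected := by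
  obtain ⟨i0⟩ := hne
  refine SimpleGraph.induce_connected_of_patches a ?_ ?_
  · simp only [coe_biUnion, Set.mem_iUnion, Finset.mem_coe]
    exact ⟨i0, mem_univ _, ha i0⟩
  · intro v hv
    simp only [coe_biUnion, Set.mem_iUnion, Finset.mem_coe] at hv
    obtain ⟨i, -, hvi⟩ := hv
    refine ⟨P i, ?_, ha i, hvi, (hP i).preconnected _ _⟩
    intro z hz
    simp only [coe_biUnion, Set.mem_iUnion, Finset.mem_coe]
    exact ⟨i, mem_univ _, hz⟩

open Classical in
/-- One more branch set. -/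
theorem exists_branch {U W X : Finset V} {s i : ℕ} {κ μ : ℝ} (hs : 1 ≤ s)
    (hlink : ∀ v ∈ U ∪ W, v ∉ X → ∀ a ∈ U, a ∉ X →
      ∃ p : G.Walk v a, p.length ≤ 5 ∧ ∀ z ∈ p.support, z ∉ X)
    (hU : (U \ X).Nonempty) (hκ : 0 ≤ κ)
    (hdens : ∀ v ∈ W, (((U \ X).filter (fun u => ¬ G.Adj v u)).card : ℝ) ≤ κ * (U \ X).card)
    (hμ : κ ^ s ≤ μ) (hW : W.Nonempty)
    (hWX : (W.card : ℝ) ≤ 2 * (W \ X).card)
    (ℬ : ℕ → Finset V)
    (hM : ∀ j < i, ((W.filter (fun v => ∀ u ∈ ℬ j, ¬ G.Adj v u)).card : ℝ) ≤ μ * W.card)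
    (hsmall : (i : ℝ) * (2 * μ) ^ s < 1) :
    ∃ B : Finset V, (G.induce (B : Set V)).Connected ∧ B.card ≤ 12 * s ∧ Disjoint B X ∧
      ((W.filter (fun v => ∀ u ∈ B, ¬ G.Adj v u)).card : ℝ) ≤ μ * W.card ∧
      ∀ j < i, ∃ u ∈ ℬ j, ∃ v ∈ B, G.Adj u v := by
  have hWpos : (0 : ℝ) < W.card := by exact_mod_cast Finset.card_pos.2 hW
  have hUpos : (0 : ℝ) < (U \ X).card := by exact_mod_cast Finset.card_pos.2 hU
  have hμ0 : 0 ≤ μ := le_trans (pow_nonneg hκ s) hμ
  -- the first half
  obtain ⟨A, hA, hA2⟩ : ∃ A ∈ Fintype.piFinset (fun _ : Fin s => U \ X),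
      ((W.filter (fun v => ∀ l, ¬ G.Adj v (A l))).card : ℝ) ≤ μ * W.card := by
    refine Finset.exists_le_of_sum_le (g := fun _ => μ * (W.card : ℝ)) ?_ ?_
    · rw [← Finset.card_pos, Fintype.card_piFinset]
      exact Finset.prod_pos fun _ _ => Finset.card_pos.2 hU
    · rw [Finset.sum_const, nsmul_eq_mul, Fintype.card_piFinset]
      have h1 := Finset.sum_card_bipartiteAbove_eq_sum_card_bipartiteBelow
        (s := Fintype.piFinset (fun _ : Fin s => U \ X)) (t := W)
        (fun A v => ∀ l, ¬ G.Adj v (A l))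
      have h2 : ∑ A ∈ Fintype.piFinset (fun _ : Fin s => U \ X),
          ((W.filter (fun v => ∀ l, ¬ G.Adj v (A l))).card : ℝ) =
          ((∑ A ∈ Fintype.piFinset (fun _ : Fin s => U \ X), (Finset.bipartiteAbove
            (fun (A : Fin s → V) (v : V) => ∀ l, ¬ G.Adj v (A l)) W A).card : ℕ) : ℝ) := by
        push_cast; rfl
      rw [h2, h1]
      push_cast
      have h3 : ∀ v ∈ W, ((Finset.bipartiteBelow
            (fun (A : Fin s → V) (v : V) => ∀ l, ¬ G.Adj v (A l))
            (Fintype.piFinset (fun _ : Fin s => U \ X)) v).card : ℝ) ≤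
            κ ^ s * ((U \ X).card : ℝ) ^ s := by
        intro v hv
        have h4 : (Finset.bipartiteBelow
            (fun (A : Fin s → V) (v : V) => ∀ l, ¬ G.Adj v (A l))
            (Fintype.piFinset (fun _ : Fin s => U \ X)) v) =
            Fintype.piFinset (fun _ : Fin s => (U \ X).filter (fun u => ¬ G.Adj v u)) := by
          ext A
          simp only [bipartiteBelow, mem_filter, Fintype.mem_piFinset]
          exact ⟨fun h l => ⟨h.1 l, h.2 l⟩, fun h => ⟨fun l => (h l).1, fun l => (h l).2⟩⟩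
        rw [h4, Fintype.card_piFinset, Finset.prod_const, Finset.card_univ, Fintype.card_fin,
          ← mul_pow]
        push_cast
        exact pow_le_pow_left₀ (Nat.cast_nonneg _) (hdens v hv) s
      refine (Finset.sum_le_sum h3).trans ?_
      rw [Finset.sum_const, nsmul_eq_mul, Finset.prod_const, Finset.card_univ, Fintype.card_fin]
      push_cast
      have h5 : (0 : ℝ) ≤ ((U \ X).card : ℝ) ^ s := by positivity
      have h6 : κ ^ s * ((U \ X).card : ℝ) ^ s ≤ μ * ((U \ X).card : ℝ) ^ s :=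
        mul_le_mul_of_nonneg_right hμ h5
      nlinarith
  -- the second half
  obtain ⟨C, hC, hC2⟩ : ∃ C ∈ Fintype.piFinset (fun _ : Fin s => W \ X),
      ∀ j < i, ∃ l, ∃ u ∈ ℬ j, G.Adj (C l) u := by
    by_contra hcon
    push Not at hcon
    have h1 : Fintype.piFinset (fun _ : Fin s => W \ X) ⊆ (range i).biUnion
        (fun j => Fintype.piFinset (fun _ : Fin s =>
          W.filter (fun v => ∀ u ∈ ℬ j, ¬ G.Adj v u))) := by
      intro C hC
      obtain ⟨j, hj, hj2⟩ := hcon C hC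
      rw [mem_biUnion]
      refine ⟨j, mem_range.2 hj, ?_⟩
      rw [Fintype.mem_piFinset] at hC ⊢
      intro l
      exact mem_filter.2 ⟨(mem_sdiff.1 (hC l)).1, fun u hu => hj2 l u hu⟩
    have h2 := (Finset.card_le_card h1).trans Finset.card_biUnion_le
    rw [Fintype.card_piFinset, Finset.prod_const, Finset.card_univ, Fintype.card_fin] at h2
    have h3 : (((W \ X).card ^ s : ℕ) : ℝ) ≤ ∑ j ∈ range i, (μ * W.card) ^ s := by
      refine le_trans (Nat.cast_le.2 h2) ?_
      push_cast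
      refine Finset.sum_le_sum ?_
      intro j hj
      rw [Fintype.card_piFinset, Finset.prod_const, Finset.card_univ, Fintype.card_fin]
      push_cast
      exact pow_le_pow_left₀ (Nat.cast_nonneg _) (hM j (mem_range.1 hj)) s
    rw [Finset.sum_const, card_range, nsmul_eq_mul] at h3
    push_cast at h3
    have h4 : (W.card : ℝ) ^ s ≤ 2 ^ s * ((W \ X).card : ℝ) ^ s := by
      rw [← mul_pow]
      exact pow_le_pow_left₀ (Nat.cast_nonneg _) hWX s
    have h5 : (W.card : ℝ) ^ s ≤ (i * (2 * μ) ^ s) * (W.card : ℝ) ^ s := by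
      calc (W.card : ℝ) ^ s ≤ 2 ^ s * ((W \ X).card : ℝ) ^ s := h4
        _ ≤ 2 ^ s * (i * (μ * W.card) ^ s) := mul_le_mul_of_nonneg_left h3 (by positivity)
        _ = _ := by rw [mul_pow, mul_pow]; ring
    have h6 : (0 : ℝ) < (W.card : ℝ) ^ s := by positivity
    nlinarith
  rw [Fintype.mem_piFinset] at hA hC
  have l0 : Fin s := ⟨0, by omega⟩
  -- the walks
  have hwalk : ∀ x : Fin s ⊕ Fin s, ∃ P : Finset V, (Sum.elim A C x) ∈ P ∧ A l0 ∈ P ∧
      P.card ≤ 6 ∧ Disjoint P X ∧ (G.induce (P : Set V)).Connected := by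
    intro x
    have h1 : Sum.elim A C x ∈ U ∪ W ∧ Sum.elim A C x ∉ X := by
      rcases x with l | l
      · exact ⟨mem_union_left _ (mem_sdiff.1 (hA l)).1, (mem_sdiff.1 (hA l)).2⟩
      · exact ⟨mem_union_right _ (mem_sdiff.1 (hC l)).1, (mem_sdiff.1 (hC l)).2⟩
    obtain ⟨p, hp1, hp2⟩ := hlink _ h1.1 h1.2 (A l0) (mem_sdiff.1 (hA l0)).1
      (mem_sdiff.1 (hA l0)).2
    refine ⟨p.support.toFinset, ?_, ?_, ?_, ?_, ?_⟩
    · rw [List.mem_toFinset]; exact p.start_mem_support
    · rw [List.mem_toFinset]; exact p.end_mem_support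
    · refine (List.toFinset_card_le _).trans ?_
      rw [SimpleGraph.Walk.length_support]
      omega
    · rw [Finset.disjoint_left]
      intro z hz
      rw [List.mem_toFinset] at hz
      exact hp2 z hz
    · have h2 : ((p.support.toFinset : Finset V) : Set V) = {v | v ∈ p.support} := by
        ext v; simp
      rw [h2]
      exact p.connected_induce_support
  choose P hP1 hP2 hP3 hP4 hP5 using hwalk
  refine ⟨univ.biUnion P, ?_, ?_, ?_, ?_, ?_⟩
  · exact connected_biUnion G (A l0) P ⟨Sum.inl l0⟩ hP2 hP5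
  · refine Finset.card_biUnion_le.trans ?_
    refine (Finset.sum_le_card_nsmul _ _ 6 (fun x _ => hP3 x)).trans ?_
    rw [Finset.card_univ, Fintype.card_sum, Fintype.card_fin, smul_eq_mul]
    omega
  · rw [Finset.disjoint_biUnion_left]
    exact fun x _ => hP4 x
  · refine le_trans ?_ hA2
    have h1 : W.filter (fun v => ∀ u ∈ univ.biUnion P, ¬ G.Adj v u) ⊆
        W.filter (fun v => ∀ l, ¬ G.Adj v (A l)) := by
      intro v hv
      rw [mem_filter] at hv ⊢
      exact ⟨hv.1, fun l => hv.2 _ (mem_biUnion.2 ⟨Sum.inl l, mem_univ _, hP1 (Sum.inl l)⟩)⟩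
    exact_mod_cast Finset.card_le_card h1
  · intro j hj
    obtain ⟨l, u, hu, hadj⟩ := hC2 j hj
    exact ⟨u, hu, C l, mem_biUnion.2 ⟨Sum.inr l, mem_univ _, hP1 (Sum.inr l)⟩, hadj.symm⟩

end Pool.Agent.Y395.HD
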