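import Pool.Agent.Y395.HD.Dense

/-!
Clique minors in dense graphs, second part.
-/

set_option autoImplicit false

namespace Pool.Agent.Y395.HD

open Finset

variable {V : Type} [Fintype V] [DecidableEq V] (G : SimpleGraph V)

/-- `K_k` is a minor of `G`: there are `k` pairwise disjoint vertex sets, each inducing a connected
subgraph, any two of them joined by an edge of `G`. -/
def HasCliqueMinor {V : Type} (G : SimpleGraph V) (k : ℕ) : Prop :=
  ∃ f : Fin k → Set V,
    (∀ i, (G.induce (f i)).Connected) ∧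
    (∀ i j, i ≠ j → Disjoint (f i) (f j)) ∧
    (∀ i j, i ≠ j → ∃ u ∈ f i, ∃ v ∈ f j, G.Adj u v)

theorem HasCliqueMinor.mono {V : Type} {G : SimpleGraph V} {k l : ℕ} (hkl : k ≤ l)
    (h : HasCliqueMinor G l) : HasCliqueMinor G k := by
  obtain ⟨f, h1, h2, h3⟩ := h
  refine ⟨fun i => f (Fin.castLE hkl i), fun i => h1 _, fun i j hij => h2 _ _ ?_,
    fun i j hij => h3 _ _ ?_⟩
  · exact fun h => hij (Fin.castLE_injective hkl h)
  · exact fun h => hij (Fin.castLE_injective hkl h)

open Classical in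
/-- The greedy construction of the branch sets. -/
theorem exists_branches {U W : Finset V} {s t : ℕ} {κ μ m : ℝ} (hs : 1 ≤ s) (hκ : 0 ≤ κ)
    (hμ : κ ^ s ≤ μ) (hW : W.Nonempty)
    (hlink : ∀ X : Finset V, (X.card : ℝ) ≤ m → ∀ v ∈ U ∪ W, v ∉ X → ∀ a ∈ U, a ∉ X →
      ∃ p : G.Walk v a, p.length ≤ 5 ∧ ∀ z ∈ p.support, z ∉ X)
    (hU : ∀ X : Finset V, (X.card : ℝ) ≤ m → (U \ X).Nonempty)
    (hdens : ∀ X : Finset V, (X.card : ℝ) ≤ m → ∀ v ∈ W,
      (((U \ X).filter (fun u => ¬ G.Adj v u)).card : ℝ) ≤ κ * (U \ X).card)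
    (hWX : ∀ X : Finset V, (X.card : ℝ) ≤ m → (W.card : ℝ) ≤ 2 * (W \ X).card)
    (ht : (12 * s * t : ℝ) ≤ m) (hsmall : (t : ℝ) * (2 * μ) ^ s < 1) :
    HasCliqueMinor G t := by
  have key : ∀ i ≤ t, ∃ ℬ : ℕ → Finset V, (∀ j < i, (G.induce (ℬ j : Set V)).Connected ∧
      (ℬ j).card ≤ 12 * s ∧
      ((W.filter (fun v => ∀ u ∈ ℬ j, ¬ G.Adj v u)).card : ℝ) ≤ μ * W.card) ∧
      ∀ j < i, ∀ l < j, Disjoint (ℬ j) (ℬ l) ∧ ∃ u ∈ ℬ l, ∃ v ∈ ℬ j, G.Adj u v := by
    intro i
    induction i with
    | zero => intro _; exact ⟨fun _ => ∅, by simp, by simp⟩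
    | succ i ih =>
      intro hi
      obtain ⟨ℬ, h1, h2⟩ := ih (by omega)
      let X : Finset V := (range i).biUnion ℬ
      have hX : (X.card : ℝ) ≤ m := by
        have h3 : X.card ≤ i * (12 * s) := by
          refine Finset.card_biUnion_le.trans ?_
          refine (Finset.sum_le_card_nsmul _ _ (12 * s) ?_).trans ?_
          · intro j hj
            exact (h1 j (mem_range.1 hj)).2.1
          · rw [card_range, smul_eq_mul]
        have h4 : i * (12 * s) ≤ t * (12 * s) := Nat.mul_le_mul_right _ (by omega)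
        have h5 : (X.card : ℝ) ≤ ((t * (12 * s) : ℕ) : ℝ) := by exact_mod_cast h3.trans h4
        push_cast at h5
        linarith
      obtain ⟨B, hB1, hB2, hB3, hB4, hB5⟩ := exists_branch (G := G) (U := U) (W := W) (X := X)
        (s := s) (i := i) (κ := κ) (μ := μ) hs (hlink X hX) (hU X hX) hκ (hdens X hX) hμ hW
        (hWX X hX) ℬ (fun j hj => (h1 j hj).2.2) (by
          have hμ0 : 0 ≤ μ := le_trans (pow_nonneg hκ s) hμ
          have : (i : ℝ) ≤ t := by exact_mod_cast (by omega : i ≤ t)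
          have h3 : (0 : ℝ) ≤ (2 * μ) ^ s := by positivity
          nlinarith)
      refine ⟨fun j => if j = i then B else ℬ j, ?_, ?_⟩
      · intro j hj
        beta_reduce
        by_cases hji : j = i
        · rw [if_pos hji]
          exact ⟨hB1, hB2, hB4⟩
        · rw [if_neg hji]
          exact h1 j (by omega)
      · intro j hj l hl
        by_cases hji : j = i
        · have hli : l ≠ i := by omega
          simp only [hji, if_true, hli, if_false]
          refine ⟨?_, hB5 l (by omega)⟩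
          refine Finset.disjoint_of_subset_right ?_ hB3
          exact Finset.subset_biUnion_of_mem ℬ (mem_range.2 (by omega))
        · have hli : l ≠ i := by omega
          simp only [hji, hli, if_false]
          exact h2 j (by omega) l hl
  obtain ⟨ℬ, h1, h2⟩ := key t le_rfl
  refine ⟨fun i => (ℬ i : Set V), fun i => (h1 i i.2).1, ?_, ?_⟩
  · intro i j hij
    rw [Finset.disjoint_coe]
    rcases lt_or_gt_of_ne (fun h => hij (Fin.ext h) : (i : ℕ) ≠ j) with h | h
    · exact (h2 j j.2 i h).1.symm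
    · exact (h2 i i.2 j h).1
  · intro i j hij
    rcases lt_or_gt_of_ne (fun h => hij (Fin.ext h) : (i : ℕ) ≠ j) with h | h
    · exact (h2 j j.2 i h).2
    · obtain ⟨u, hu, v, hv, huv⟩ := (h2 i i.2 j h).2
      exact ⟨v, hv, u, hu, huv.symm⟩

open Classical in
/-- **Clique minors in dense graphs**, explicit inequalities. -/
theorem minor_of_dense {q : ℝ} (hq : 0 < q) (hq1 : q ≤ 1) (hV : 0 < Fintype.card V)
    (h : q * (Fintype.card V : ℝ) ^ 2 ≤ ∑ v, ((nb G v).card : ℝ)) {s t : ℕ} (hs : 1 ≤ s)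
    (ht : (12 * s * t : ℝ) ≤ q ^ 3 / 1024 * (Fintype.card V : ℝ))
    (hsmall : (t : ℝ) * (2 * (1 - q ^ 2 / 128) ^ s) ^ s < 1) :
    HasCliqueMinor G t := by
  obtain ⟨U0, U, hU0, hU, hcod⟩ := exists_core G hq hV h
  set n : ℝ := (Fintype.card V : ℝ) with hn
  have hn0 : 0 < n := by rw [hn]; exact_mod_cast hV
  have hq2 : q ^ 2 ≤ q := by nlinarith
  have hq3 : q ^ 3 ≤ q ^ 2 := by nlinarith [sq_nonneg q]
  have hU0' : (0 : ℝ) < U0.card := lt_of_lt_of_le (by positivity) hU0
  have hUc : q * n / 4 ≤ U.card := by linarith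
  have hUpos : (0 : ℝ) < U.card := lt_of_lt_of_le (by positivity) hUc
  have hUne : U.Nonempty := by
    rw [← Finset.card_pos]
    exact_mod_cast hUpos
  -- the vertices with many neighbours in `U`
  let W : Finset V := univ.filter (fun v => q ^ 2 / 64 * (U.card : ℝ) ≤ (U ∩ nb G v).card)
  have hdeg : ∀ u ∈ U, q ^ 2 / 32 * n ≤ (nb G u).card := by
    intro u hu
    have h1 := hcod u hu u hu
    have h2 : (0 : ℝ) < (U0.filter (fun x => q ^ 2 / 32 * n ≤ cod G u x ∧
        q ^ 2 / 32 * n ≤ cod G u x)).card := lt_of_lt_of_le (by positivity) h1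
    have h3 : 0 < (U0.filter (fun x => q ^ 2 / 32 * n ≤ cod G u x ∧
        q ^ 2 / 32 * n ≤ cod G u x)).card := by exact_mod_cast h2
    obtain ⟨x, hx⟩ := Finset.card_pos.1 h3
    rw [mem_filter] at hx
    refine hx.2.1.trans ?_
    unfold cod
    exact_mod_cast Finset.card_le_card Finset.inter_subset_left
  have hWc : q ^ 2 / 64 * n ≤ W.card := by
    have h1 : ∑ u ∈ U, ((nb G u).card : ℝ) = ∑ v, ((U ∩ nb G v).card : ℝ) := by
      have h2 := Finset.sum_card_bipartiteAbove_eq_sum_card_bipartiteBelow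
        (s := U) (t := (univ : Finset V)) (fun u v => G.Adj u v)
      have h3 : ∑ u ∈ U, (Finset.bipartiteAbove (fun u v => G.Adj u v) univ u).card =
          ∑ u ∈ U, (nb G u).card := by
        refine Finset.sum_congr rfl fun u _ => ?_
        congr 1
      have h4 : ∑ v ∈ (univ : Finset V), (Finset.bipartiteBelow (fun u v => G.Adj u v) U v).card =
          ∑ v, (U ∩ nb G v).card := by
        refine Finset.sum_congr rfl fun v _ => ?_
        congr 1
        ext u
        simp only [bipartiteBelow, mem_filter, mem_inter, mem_nb]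
        exact ⟨fun h => ⟨h.1, h.2.symm⟩, fun h => ⟨h.1, h.2.symm⟩⟩
      rw [h3, h4] at h2
      exact_mod_cast h2
    have h2 : (U.card : ℝ) * (q ^ 2 / 32 * n) ≤ ∑ u ∈ U, ((nb G u).card : ℝ) := by
      rw [← nsmul_eq_mul, ← Finset.sum_const]
      exact Finset.sum_le_sum hdeg
    have h3 : ∑ v, ((U ∩ nb G v).card : ℝ) ≤ W.card * U.card + n * (q ^ 2 / 64 * U.card) := by
      have h4 : ∀ v, ((U ∩ nb G v).card : ℝ) ≤ (if v ∈ W then (U.card : ℝ) else 0) +
          q ^ 2 / 64 * U.card := by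
        intro v
        by_cases hv : v ∈ W
        · simp only [hv, if_true]
          have h5 : ((U ∩ nb G v).card : ℝ) ≤ U.card := by
            exact_mod_cast Finset.card_le_card Finset.inter_subset_left
          have : 0 ≤ q ^ 2 / 64 * (U.card : ℝ) := by positivity
          linarith
        · simp only [hv, if_false, zero_add]
          simp only [W, mem_filter, mem_univ, true_and, not_le] at hv
          exact hv.le
      refine (Finset.sum_le_sum fun v _ => h4 v).trans ?_
      rw [Finset.sum_add_distrib, Finset.sum_ite_mem, Finset.univ_inter, Finset.sum_const,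
        Finset.sum_const, nsmul_eq_mul, nsmul_eq_mul, Finset.card_univ]
    rw [← h1] at h3
    have h4 : (U.card : ℝ) * (q ^ 2 / 32 * n) ≤ W.card * U.card + n * (q ^ 2 / 64 * U.card) :=
      h2.trans h3
    have h5 : (U.card : ℝ) * (q ^ 2 / 64 * n) ≤ U.card * W.card := by nlinarith
    exact le_of_mul_le_mul_left h5 hUpos
  have hWne : W.Nonempty := by
    rw [← Finset.card_pos]
    have : (0 : ℝ) < W.card := lt_of_lt_of_le (by positivity) hWc
    exact_mod_cast this
  have hm1 : ∀ X : Finset V, (X.card : ℝ) ≤ q ^ 3 / 1024 * n →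
      (X.card : ℝ) ≤ q ^ 2 / 128 * U.card := by
    intro X hX
    refine hX.trans ?_
    have : q ^ 2 / 128 * (q * n / 4) ≤ q ^ 2 / 128 * U.card :=
      mul_le_mul_of_nonneg_left hUc (by positivity)
    have h6 : 0 ≤ q ^ 3 * n := by positivity
    nlinarith
  have hinter : ∀ v ∈ W, ∀ X : Finset V, (X.card : ℝ) ≤ q ^ 3 / 1024 * n →
      q ^ 2 / 128 * (U.card : ℝ) ≤ ((U ∩ nb G v) \ X).card := by
    intro v hv X hX
    simp only [W, mem_filter, mem_univ, true_and] at hv
    have h1 := Finset.le_card_sdiff X (U ∩ nb G v)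
    have h2 : ((U ∩ nb G v).card : ℝ) ≤ X.card + ((U ∩ nb G v) \ X).card := by
      have : (U ∩ nb G v).card ≤ X.card + ((U ∩ nb G v) \ X).card := by omega
      exact_mod_cast this
    have h3 := hm1 X hX
    linarith
  refine exists_branches G (U := U) (W := W) (s := s) (t := t) (κ := 1 - q ^ 2 / 128)
    (μ := (1 - q ^ 2 / 128) ^ s) (m := q ^ 3 / 1024 * n) hs (by nlinarith) le_rfl hWne
    ?_ ?_ ?_ ?_ ht hsmall
  · -- links
    intro X hX v hv hvX a ha haX
    have hqn : 0 < q ^ 2 * n := by positivity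
    have hX1 : (X.card : ℝ) < U0.card / 2 := by nlinarith
    have hX2 : (X.card : ℝ) < q ^ 2 / 32 * n := by nlinarith
    have hcase : v ∈ U ∨ v ∈ W := mem_union.1 hv
    rcases hcase with hvU | hvW
    · obtain ⟨p, hp, hp2⟩ := exists_walk G hcod hX1 hX2 hvU ha hvX haX
      exact ⟨p, by omega, hp2⟩
    · have h1 := hinter v hvW X hX
      have h2 : (0 : ℝ) < ((U ∩ nb G v) \ X).card := lt_of_lt_of_le (by positivity) h1
      have h3 : 0 < ((U ∩ nb G v) \ X).card := by exact_mod_cast h2
      obtain ⟨u, hu⟩ := Finset.card_pos.1 h3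
      rw [mem_sdiff, mem_inter, mem_nb] at hu
      obtain ⟨p, hp, hp2⟩ := exists_walk G hcod hX1 hX2 hu.1.1 ha hu.2 haX
      refine ⟨.cons hu.1.2 p, ?_, ?_⟩
      · rw [SimpleGraph.Walk.length_cons]; omega
      · intro z hz
        rw [SimpleGraph.Walk.support_cons, List.mem_cons] at hz
        rcases hz with rfl | hz
        · exact hvX
        · exact hp2 z hz
  · intro X hX
    have h1 := hm1 X hX
    have h2 : (X.card : ℝ) < U.card := by nlinarith
    obtain ⟨x, hx, hxX⟩ := exists_avoid h2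
    exact ⟨x, mem_sdiff.2 ⟨hx, hxX⟩⟩
  · intro X hX v hv
    have h1 := hinter v hv X hX
    have h2 : (U \ X).filter (fun u => ¬ G.Adj v u) = (U \ X) \ ((U ∩ nb G v) \ X) := by
      ext u
      simp only [mem_filter, mem_sdiff, mem_inter, mem_nb]
      tauto
    have h3 : (U ∩ nb G v) \ X ⊆ U \ X := Finset.sdiff_subset_sdiff Finset.inter_subset_left
      (Finset.Subset.refl _)
    rw [h2, Finset.card_sdiff_of_subset h3, Nat.cast_sub (Finset.card_le_card h3)]
    have h4 : ((U \ X).card : ℝ) ≤ U.card := by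
      exact_mod_cast Finset.card_le_card Finset.sdiff_subset
    have h5 : q ^ 2 / 128 * ((U \ X).card : ℝ) ≤ q ^ 2 / 128 * U.card :=
      mul_le_mul_of_nonneg_left h4 (by positivity)
    linarith
  · intro X hX
    have h1 := Finset.le_card_sdiff X W
    have h2 : (W.card : ℝ) ≤ X.card + (W \ X).card := by
      have : W.card ≤ X.card + (W \ X).card := by omega
      exact_mod_cast this
    have h3 : (X.card : ℝ) ≤ q ^ 2 / 128 * n := by
      refine hX.trans ?_
      nlinarith
    nlinarith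

end Pool.Agent.Y395.HD
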