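import Pool.Agent.Y395.HD.Col

/-!
Random subgraphs of dense graphs satisfy Hadwiger's conjecture.
-/

set_option autoImplicit false

namespace Pool.Agent.Y395.HD

open Finset

/-- `G` satisfies Hadwiger's conjecture with a factor `A` to spare. -/
def Hadwiger {V : Type} (G : SimpleGraph V) (A : ℕ) : Prop :=
  ∀ k : ℕ, ¬ G.Colorable k → HasCliqueMinor G (A * (k + 1))

section count

variable {α : Type} [DecidableEq α]

/-- few subsets are small -/
theorem card_small (P : Finset α) : ((P.powerset.filter (fun R => 8 * R.card ≤ P.card)).card : ℝ) ≤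
    2 ^ P.card * Real.exp (-((P.card : ℝ) / 10)) := by
  set N1 := P.powerset.filter (fun R => 8 * R.card ≤ P.card) with hN1
  have h1 := Finset.sum_pow_mul_eq_add_pow (1 / 2 : ℝ) 1 P
  set m : ℝ := (P.card : ℝ) with hm
  have hm0 : 0 ≤ m := Nat.cast_nonneg _
  have hl1 := Real.log_two_gt_d9
  have h2 : (N1.card : ℝ) * Real.exp (-(m / 8 * Real.log 2)) ≤ (1 / 2 + 1 : ℝ) ^ P.card := by
    rw [← h1, ← nsmul_eq_mul, ← Finset.sum_const]
    have h3 : ∑ R ∈ N1, Real.exp (-(m / 8 * Real.log 2)) ≤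
        ∑ R ∈ N1, (1 / 2 : ℝ) ^ R.card * 1 ^ (P.card - R.card) := by
      refine Finset.sum_le_sum ?_
      intro R hR
      rw [one_pow, mul_one]
      have h4 : 8 * R.card ≤ P.card := (mem_filter.1 hR).2
      have h5 : (8 : ℝ) * R.card ≤ m := by rw [hm]; exact_mod_cast h4
      have h6 : (1 / 2 : ℝ) ^ R.card = Real.exp (-(R.card * Real.log 2)) := by
        rw [Real.exp_neg, Real.exp_nat_mul, Real.exp_log (by norm_num)]
        rw [one_div, inv_pow]
      rw [h6]
      refine Real.exp_le_exp.2 ?_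
      nlinarith
    refine h3.trans (Finset.sum_le_sum_of_subset_of_nonneg (Finset.filter_subset _ _) ?_)
    intro _ _ _; positivity
  have h3 : (1 / 2 + 1 : ℝ) ^ P.card ≤ Real.exp (m / 2) := by
    have h4 : (1 / 2 + 1 : ℝ) ≤ Real.exp (1 / 2) := Real.add_one_le_exp _
    have h5 := pow_le_pow_left₀ (by norm_num) h4 P.card
    rw [← Real.exp_nat_mul] at h5
    refine h5.trans (le_of_eq ?_)
    congr 1
    rw [hm]; ring
  have h4 : (N1.card : ℝ) ≤ Real.exp (m / 2) * Real.exp (m / 8 * Real.log 2) := by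
    have h5 : (N1.card : ℝ) * Real.exp (-(m / 8 * Real.log 2)) * Real.exp (m / 8 * Real.log 2) ≤
        Real.exp (m / 2) * Real.exp (m / 8 * Real.log 2) :=
      mul_le_mul_of_nonneg_right (h2.trans h3) (Real.exp_pos _).le
    rw [mul_assoc, ← Real.exp_add] at h5
    simpa using h5
  refine h4.trans ?_
  have h5 : (2 : ℝ) ^ P.card = Real.exp (m * Real.log 2) := by
    rw [hm, Real.exp_nat_mul, Real.exp_log (by norm_num)]
  rw [h5, ← Real.exp_add, ← Real.exp_add]
  refine Real.exp_le_exp.2 ?_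
  nlinarith

/-- few subsets contain one of few large sets -/
theorem card_contain {ι : Type} (P : Finset α) (𝒦 : Finset ι) (Q : ι → Finset α) {M : ℝ}
    (hM : ∀ i ∈ 𝒦, M ≤ (Q i).card) :
    ((P.powerset.filter (fun R => ∃ i ∈ 𝒦, Q i ⊆ R)).card : ℝ) ≤
      𝒦.card * (2 ^ P.card * Real.exp (-(M * Real.log 2))) := by
  classical
  have h1 : P.powerset.filter (fun R => ∃ i ∈ 𝒦, Q i ⊆ R) ⊆
      𝒦.biUnion (fun i => P.powerset.filter (fun R => Q i ⊆ R)) := by
    intro R hR
    rw [mem_filter] at hR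
    obtain ⟨h1, i, hi, h2⟩ := hR
    exact mem_biUnion.2 ⟨i, hi, mem_filter.2 ⟨h1, h2⟩⟩
  have h2 := (Finset.card_le_card h1).trans Finset.card_biUnion_le
  have h3 : ((P.powerset.filter (fun R => ∃ i ∈ 𝒦, Q i ⊆ R)).card : ℝ) ≤
      ∑ i ∈ 𝒦, ((P.powerset.filter (fun R => Q i ⊆ R)).card : ℝ) := by exact_mod_cast h2
  refine h3.trans ?_
  rw [← nsmul_eq_mul, ← Finset.sum_const]
  refine Finset.sum_le_sum ?_
  intro i hi
  by_cases hQ : Q i ⊆ P
  · rw [← Finset.Icc_eq_filter_powerset, Finset.card_Icc_finset hQ]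
    push_cast
    have h4 : (2 : ℝ) ^ (P.card - (Q i).card) = 2 ^ P.card * Real.exp (-((Q i).card * Real.log 2)) := by
      rw [Real.exp_neg, Real.exp_nat_mul, Real.exp_log (by norm_num)]
      rw [pow_sub₀ _ (by norm_num) (Finset.card_le_card hQ)]
    rw [h4]
    refine mul_le_mul_of_nonneg_left (Real.exp_le_exp.2 ?_) (by positivity)
    rw [neg_le_neg_iff]
    exact mul_le_mul_of_nonneg_right (hM i hi) (Real.log_nonneg (by norm_num))
  · have h4 : P.powerset.filter (fun R => Q i ⊆ R) = ∅ := by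
      rw [Finset.filter_eq_empty_iff]
      intro R hR hQR
      exact hQ (hQR.trans (mem_powerset.1 hR))
    rw [h4, Finset.card_empty]
    push_cast
    positivity

end count

/-- the sum of the degrees -/
theorem sum_nb {V : Type} [Fintype V] [DecidableEq V] (G : SimpleGraph V) :
    ∑ v, ((nb G v).card : ℝ) = 2 * (G.edgeSet.ncard : ℝ) := by
  classical
  have h1 := G.sum_degrees_eq_twice_card_edges
  have h2 : ∑ v, (nb G v).card = 2 * G.edgeSet.ncard := by
    rw [← SimpleGraph.coe_edgeFinset, Set.ncard_coe_finset, ← h1]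
    refine Finset.sum_congr rfl fun v _ => ?_
    rw [← SimpleGraph.card_neighborFinset_eq_degree]
    congr 1
    ext w
    rw [mem_nb, SimpleGraph.mem_neighborFinset]
  exact_mod_cast h2

/-- elementary asymptotics -/
theorem eventually_log (c : ℝ) (hc : 0 < c) (A : ℝ) :
    ∀ᶠ n : ℕ in Filter.atTop, A * Real.log (8 * Real.log n + 3) ≤
      c * Real.sqrt (Real.log n) := by
  have h1 : Filter.Tendsto (fun n : ℕ => Real.log (n : ℝ)) Filter.atTop Filter.atTop :=
    Real.tendsto_log_atTop.comp tendsto_natCast_atTop_atTop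
  have h2 : ∀ᶠ x : ℝ in Filter.atTop, A * Real.log (8 * x + 3) ≤ c * Real.sqrt x := by
    have h3 : (fun x : ℝ => Real.log x) =o[Filter.atTop] (fun x => x ^ (1 / 2 : ℝ)) :=
      isLittleO_log_rpow_atTop (by norm_num)
    have h4 := h3.bound (show 0 < c / (2 * (|A| + 1)) by positivity)
    filter_upwards [h4, Filter.eventually_ge_atTop 11,
      Filter.eventually_ge_atTop (Real.exp 1)] with x hx hx11 hxe
    have hx0 : 0 < x := by linarith
    have hlx : 1 ≤ Real.log x := by
      rw [Real.le_log_iff_exp_le hx0]; exact hxe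
    rw [Real.norm_of_nonneg (by linarith), Real.norm_of_nonneg (by positivity),
      ← Real.sqrt_eq_rpow] at hx
    have h5 : Real.log (8 * x + 3) ≤ 2 * Real.log x := by
      rw [show 2 * Real.log x = Real.log (x ^ 2) by rw [Real.log_pow]; norm_num]
      exact Real.log_le_log (by linarith) (by nlinarith)
    have h6 : 0 ≤ Real.log (8 * x + 3) := Real.log_nonneg (by linarith)
    have h7 : A * Real.log (8 * x + 3) ≤ (|A| + 1) * (2 * Real.log x) := by
      calc A * Real.log (8 * x + 3) ≤ (|A| + 1) * Real.log (8 * x + 3) :=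
            mul_le_mul_of_nonneg_right (by linarith [le_abs_self A]) h6
        _ ≤ _ := mul_le_mul_of_nonneg_left h5 (by positivity)
    have h8 : (|A| + 1) * (2 * Real.log x) ≤ (|A| + 1) * (2 * (c / (2 * (|A| + 1)) *
        Real.sqrt x)) := mul_le_mul_of_nonneg_left (by linarith) (by positivity)
    have h9 : (|A| + 1) * (2 * (c / (2 * (|A| + 1)) * Real.sqrt x)) = c * Real.sqrt x := by
      field_simp
    linarith
  exact h1.eventually h2

open Classical in
/-- **Random subgraphs of dense graphs.** -/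
theorem random_subgraph {A : ℕ} (hA : 1 ≤ A) {p ε : ℝ} (hp : 0 < p) (hε : 0 < ε) :
    ∃ N : ℕ, ∀ (V : Type) [Fintype V] (G : SimpleGraph V), N ≤ Fintype.card V →
      p * (Fintype.card V : ℝ) ^ 2 ≤ G.edgeFinset.card →
      ((G.edgeFinset.powerset.filter (fun F : Finset (Sym2 V) =>
        ¬ Hadwiger (SimpleGraph.fromEdgeSet (F : Set (Sym2 V))) A)).card : ℝ) ≤
        ε * 2 ^ G.edgeFinset.card := by
  have e1 := eventually_log ((p / 4) ^ 4) (by positivity) (10 ^ 7 * A)
  have e2 : ∀ᶠ n : ℕ in Filter.atTop, Real.exp (-(p * (n : ℝ) ^ 2 / 10)) ≤ ε / 2 := by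
    have h1 : Filter.Tendsto (fun n : ℕ => Real.exp (-(p * (n : ℝ) ^ 2 / 10))) Filter.atTop
        (nhds 0) := by
      refine Real.tendsto_exp_neg_atTop_nhds_zero.comp ?_
      refine Filter.Tendsto.atTop_div_const (by norm_num) ?_
      refine Filter.Tendsto.const_mul_atTop hp ?_
      exact (Filter.tendsto_pow_atTop (by norm_num)).comp tendsto_natCast_atTop_atTop
    exact h1.eventually (ge_mem_nhds (by positivity))
  have e3 : ∀ᶠ n : ℕ in Filter.atTop, (1 : ℝ) / n ≤ ε / 2 := by
    have h1 : Filter.Tendsto (fun n : ℕ => (1 : ℝ) / n) Filter.atTop (nhds 0) :=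
      tendsto_const_div_atTop_nhds_zero_nat 1
    exact h1.eventually (ge_mem_nhds (by positivity))
  obtain ⟨N, hN⟩ := Filter.eventually_atTop.1 (e1.and (e2.and (e3.and
    (Filter.eventually_ge_atTop 3))))
  refine ⟨N, ?_⟩
  intro V _ G hV hG
  obtain ⟨f1, f2, f3, f4⟩ := hN _ hV
  set n : ℝ := (Fintype.card V : ℝ) with hn
  set E := G.edgeFinset with hE
  have hn3 : (3 : ℝ) ≤ n := by rw [hn]; exact_mod_cast f4
  set L : ℝ := Real.log n with hL
  have hL1 : 1 ≤ L := by
    rw [hL, Real.le_log_iff_exp_le (by linarith)]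
    have := Real.exp_one_lt_d9
    linarith
  set r : ℕ := ⌈8 * L⌉₊ + 1 with hr
  have hr1 : 8 * L + 1 ≤ r := by
    rw [hr]; push_cast
    linarith [Nat.le_ceil (8 * L)]
  have hr2 : (r : ℝ) ≤ 8 * L + 2 := by
    rw [hr]; push_cast
    linarith [(Nat.ceil_lt_add_one (show 0 ≤ 8 * L by linarith)).le]
  let Q : Finset V → Finset (Sym2 V) := fun K => K.offDiag.image (Function.uncurry Sym2.mk)
  let 𝒦 : Finset (Finset V) := powersetCard r univ
  -- the bad sets
  have hsub : E.powerset.filter (fun F : Finset (Sym2 V) =>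
      ¬ Hadwiger (SimpleGraph.fromEdgeSet (F : Set (Sym2 V))) A) ⊆
      (E.powerset.filter (fun R : Finset (Sym2 V) => 8 * R.card ≤ E.card)) ∪
      (E.powerset.filter (fun R : Finset (Sym2 V) => ∃ K ∈ 𝒦, Q K ⊆ R)) := by
    intro F hF
    rw [mem_filter] at hF
    obtain ⟨hFE, hbad⟩ := hF
    rw [mem_union, mem_filter, mem_filter]
    by_contra hcon
    push Not at hcon
    obtain ⟨g1, g2⟩ := hcon
    have g1 := g1 hFE
    have g2 := g2 hFE
    apply hbad
    intro k hk
    set H := SimpleGraph.fromEdgeSet (F : Set (Sym2 V)) with hH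
    have hHE : H.edgeSet.ncard = F.card := by
      rw [hH, SimpleGraph.edgeSet_fromEdgeSet]
      have h1 : (F : Set (Sym2 V)) \ Sym2.diagSet = (F : Set (Sym2 V)) := by
        ext e
        rw [Set.mem_sdiff, Finset.mem_coe, Sym2.mem_diagSet]
        refine ⟨fun h => h.1, fun h => ⟨h, ?_⟩⟩
        have h2 : e ∈ G.edgeSet := by
          have := mem_powerset.1 hFE h
          rw [hE, SimpleGraph.mem_edgeFinset] at this
          exact this
        exact G.not_isDiag_of_mem_edgeSet h2
      rw [h1, Set.ncard_coe_finset]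
    have hsum : p / 4 * n ^ 2 ≤ ∑ v, ((nb H v).card : ℝ) := by
      rw [sum_nb, hHE]
      have h1 : (E.card : ℝ) < 8 * F.card := by exact_mod_cast g1
      linarith
    refine hadwiger_of_clique H (w := r - 1) hA (show 0 < p / 4 by positivity) hsum ?_ ?_ hk
    · intro K hK
      by_contra hKr
      have hKr' : r ≤ K.card := by omega
      obtain ⟨K', hK', hK'r⟩ := Finset.exists_subset_card_eq hKr'
      refine g2 K' (mem_powersetCard.2 ⟨subset_univ _, hK'r⟩) ?_
      intro e he
      rw [mem_image] at he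
      obtain ⟨⟨x, y⟩, hxy, rfl⟩ := he
      rw [mem_offDiag] at hxy
      have h1 := hK x (hK' hxy.1) y (hK' hxy.2.1) hxy.2.2
      rw [hH, SimpleGraph.fromEdgeSet_adj] at h1
      exact h1.1
    · have h1 : (((r - 1 : ℕ) : ℝ) + 1) = r := by
        have : r - 1 + 1 = r := by omega
        exact_mod_cast this
      rw [h1]
      refine le_trans ?_ f1
      refine mul_le_mul_of_nonneg_left (Real.log_le_log ?_ ?_) (by positivity)
      · linarith
      · linarith
  have h1 := Finset.card_le_card hsub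
  have h2 := h1.trans (Finset.card_union_le _ _)
  have h3 : ((E.powerset.filter (fun F : Finset (Sym2 V) =>
      ¬ Hadwiger (SimpleGraph.fromEdgeSet (F : Set (Sym2 V))) A)).card : ℝ) ≤
      ((E.powerset.filter (fun R : Finset (Sym2 V) => 8 * R.card ≤ E.card)).card : ℝ) +
      ((E.powerset.filter (fun R : Finset (Sym2 V) => ∃ K ∈ 𝒦, Q K ⊆ R)).card : ℝ) := by exact_mod_cast h2
  have h4 := card_small E
  have h5 := card_contain E 𝒦 Q (M := r * (4 * L)) (by
    intro K hK
    rw [Sym2.card_image_offDiag, (mem_powersetCard.1 hK).2, Nat.cast_choose_two]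
    have : (r : ℝ) * (8 * L) ≤ r * (r - 1) := mul_le_mul_of_nonneg_left (by linarith) (by linarith)
    linarith)
  have h6 : (𝒦.card : ℝ) ≤ Real.exp (r * L) := by
    rw [card_powersetCard, Finset.card_univ]
    have h7 : ((Fintype.card V).choose r : ℝ) ≤ n ^ r := by
      rw [hn]; exact_mod_cast Nat.choose_le_pow _ _
    refine h7.trans (le_of_eq ?_)
    rw [Real.exp_nat_mul, hL, Real.exp_log (by linarith)]
  have hl2 := Real.log_two_gt_d9
  have h7 : (𝒦.card : ℝ) * (2 ^ E.card * Real.exp (-(r * (4 * L) * Real.log 2))) ≤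
      2 ^ E.card * (1 / n) := by
    calc (𝒦.card : ℝ) * (2 ^ E.card * Real.exp (-(r * (4 * L) * Real.log 2))) ≤
          Real.exp (r * L) * (2 ^ E.card * Real.exp (-(r * (4 * L) * Real.log 2))) :=
          mul_le_mul_of_nonneg_right h6 (by positivity)
      _ = 2 ^ E.card * Real.exp (r * L + -(r * (4 * L) * Real.log 2)) := by
          rw [Real.exp_add]; ring
      _ ≤ 2 ^ E.card * Real.exp (-L) := by
          refine mul_le_mul_of_nonneg_left (Real.exp_le_exp.2 ?_) (by positivity)
          have h8 : L ≤ r * L := by nlinarith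
          have h9 : r * L * (4 * Real.log 2) ≥ r * L * 2 :=
            mul_le_mul_of_nonneg_left (by linarith) (by nlinarith)
          nlinarith
      _ = 2 ^ E.card * (1 / n) := by
          rw [Real.exp_neg, hL, Real.exp_log (by linarith), one_div]
  have h8 : Real.exp (-((E.card : ℝ) / 10)) ≤ ε / 2 := by
    refine le_trans (Real.exp_le_exp.2 ?_) f2
    rw [neg_le_neg_iff]
    linarith
  have hpow : (0 : ℝ) < 2 ^ E.card := by positivity
  calc ((E.powerset.filter (fun F : Finset (Sym2 V) =>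
      ¬ Hadwiger (SimpleGraph.fromEdgeSet (F : Set (Sym2 V))) A)).card : ℝ) ≤
        2 ^ E.card * Real.exp (-((E.card : ℝ) / 10)) + 2 ^ E.card * (1 / n) := by linarith
    _ ≤ 2 ^ E.card * (ε / 2) + 2 ^ E.card * (ε / 2) := by
        refine add_le_add (mul_le_mul_of_nonneg_left h8 hpow.le)
          (mul_le_mul_of_nonneg_left f3 hpow.le)
    _ = ε * 2 ^ E.card := by ring

end Pool.Agent.Y395.HD
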