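import Pool.Agent.Y395.HD.Col

/-!
Vertex-transitive graphs: colourings by images of an independent set (Lovász), clique minors in
very dense graphs, and Hadwiger's conjecture for dense vertex-transitive graphs.
-/

set_option autoImplicit false

namespace Pool.Agent.Y395.HD

open Finset

variable {V : Type} [Fintype V] [DecidableEq V] (G : SimpleGraph V)

theorem finite_aut : Finite (G ≃g G) :=
  Finite.of_injective (fun φ : G ≃g G => (φ : V → V)) DFunLike.coe_injective

/-- Some automorphism moves a large part of `I` into `Y`. -/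
theorem exists_aut (htr : ∀ x y : V, ∃ φ : G ≃g G, φ x = y) (I Y : Finset V) :
    ∃ φ : G ≃g G, I.card * Y.card ≤ Fintype.card V * (Y.filter (fun y => φ.symm y ∈ I)).card := by
  classical
  have := finite_aut G
  have := Fintype.ofFinite (G ≃g G)
  have h1 : ∀ a y : V, Fintype.card V * (univ.filter (fun φ : G ≃g G => φ.symm y = a)).card =
      Fintype.card (G ≃g G) := by
    intro a y
    have h2 : ∀ y' : V, (univ.filter (fun φ : G ≃g G => φ.symm y' = a)).card =
        (univ.filter (fun φ : G ≃g G => φ.symm y = a)).card := by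
      intro y'
      obtain ⟨ψ, hψ⟩ := htr y' y
      refine Finset.card_bij (fun φ _ => φ.trans ψ) ?_ ?_ ?_
      · intro φ hφ
        simp only [mem_filter, mem_univ, true_and] at hφ ⊢
        change φ.symm (ψ.symm y) = a
        rw [← hψ, ψ.symm_apply_apply]
        exact hφ
      · intro φ _ φ' _ h
        ext x
        have h3 := congrArg (fun f : G ≃g G => ψ.symm (f x)) h
        simpa using h3
      · intro φ hφ
        simp only [mem_filter, mem_univ, true_and] at hφ
        refine ⟨φ.trans ψ.symm, ?_, ?_⟩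
        · simp only [mem_filter, mem_univ, true_and]
          change φ.symm (ψ y') = a
          rw [hψ]
          exact hφ
        · ext x
          simp
    have h3 := Finset.card_eq_sum_card_fiberwise (f := fun φ : G ≃g G => φ a)
      (s := univ) (t := univ) (fun _ _ => mem_univ _)
    have h4 : ∀ y' ∈ (univ : Finset V), (univ.filter (fun φ : G ≃g G => φ a = y')).card =
        (univ.filter (fun φ : G ≃g G => φ.symm y = a)).card := by
      intro y' _
      rw [← h2 y']
      congr 1
      ext φ
      simp only [mem_filter, mem_univ, true_and]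
      constructor
      · rintro rfl
        exact φ.symm_apply_apply a
      · rintro rfl
        exact φ.apply_symm_apply y'
    rw [Finset.sum_congr rfl h4, Finset.sum_const, Finset.card_univ, Finset.card_univ,
      smul_eq_mul] at h3
    exact h3.symm
  -- averaging
  have h2 : ∑ φ : G ≃g G, (Fintype.card V * (Y.filter (fun y => φ.symm y ∈ I)).card) =
      Fintype.card (G ≃g G) * (I.card * Y.card) := by
    rw [← Finset.mul_sum]
    have h3 : ∑ φ : G ≃g G, (Y.filter (fun y => φ.symm y ∈ I)).card =
        ∑ y ∈ Y, ∑ a ∈ I, (univ.filter (fun φ : G ≃g G => φ.symm y = a)).card := by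
      have h4 : ∀ φ : G ≃g G, (Y.filter (fun y => φ.symm y ∈ I)).card =
          ∑ y ∈ Y, ∑ a ∈ I, if φ.symm y = a then 1 else 0 := by
        intro φ
        rw [Finset.card_filter]
        refine Finset.sum_congr rfl fun y _ => ?_
        rw [Finset.sum_ite_eq]
      rw [Finset.sum_congr rfl (fun φ _ => h4 φ), Finset.sum_comm]
      refine Finset.sum_congr rfl fun y _ => ?_
      rw [Finset.sum_comm]
      refine Finset.sum_congr rfl fun a _ => ?_
      rw [Finset.card_filter]
    rw [h3, Finset.mul_sum]
    have h5 : ∀ y ∈ Y, Fintype.card V * ∑ a ∈ I,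
        (univ.filter (fun φ : G ≃g G => φ.symm y = a)).card =
        I.card * Fintype.card (G ≃g G) := by
      intro y _
      rw [Finset.mul_sum, Finset.sum_congr rfl (fun a _ => h1 a y), Finset.sum_const, smul_eq_mul]
    rw [Finset.sum_congr rfl h5, Finset.sum_const, smul_eq_mul]
    ring
  by_contra hcon
  push Not at hcon
  have h3 : ∑ φ : G ≃g G, (Fintype.card V * (Y.filter (fun y => φ.symm y ∈ I)).card) <
      ∑ φ : G ≃g G, (I.card * Y.card) :=
    Finset.sum_lt_sum_of_nonempty ⟨SimpleGraph.Iso.refl, mem_univ _⟩ (fun φ _ => hcon φ)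
  rw [Finset.sum_const, Finset.card_univ, smul_eq_mul, h2] at h3
  exact lt_irrefl _ h3

/-- Greedy covering by images of an independent set. -/
theorem exists_cover (htr : ∀ x y : V, ∃ φ : G ≃g G, φ x = y) (I : Finset V)
    (hI : ∀ u ∈ I, ∀ v ∈ I, ¬ G.Adj u v) (hV : 0 < Fintype.card V) (m : ℕ) :
    ∃ (Y : Finset V) (c : V → ℕ), (Y.card : ℝ) ≤ Fintype.card V *
      (1 - (I.card : ℝ) / Fintype.card V) ^ m ∧ (∀ v ∉ Y, c v < m) ∧
      ∀ u ∉ Y, ∀ v ∉ Y, G.Adj u v → c u ≠ c v := by
  classical
  have hn : (0 : ℝ) < Fintype.card V := by exact_mod_cast hV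
  have hIn : (I.card : ℝ) ≤ Fintype.card V := by exact_mod_cast Finset.card_le_univ I
  induction m with
  | zero => exact ⟨univ, fun _ => 0, by rw [pow_zero, mul_one, Finset.card_univ], by simp, by simp⟩
  | succ m ih =>
    obtain ⟨Y, c, h1, h2, h3⟩ := ih
    obtain ⟨φ, hφ⟩ := exists_aut G htr I Y
    have hφ' : (I.card : ℝ) * Y.card ≤ Fintype.card V *
        (Y.filter (fun y => φ.symm y ∈ I)).card := by exact_mod_cast hφ
    refine ⟨Y.filter (fun y => φ.symm y ∉ I), fun v => if v ∈ Y then m else c v, ?_, ?_, ?_⟩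
    · have h4 := Finset.card_filter_add_card_filter_not (s := Y) (fun y => φ.symm y ∈ I)
      have h5 : ((Y.filter (fun y => φ.symm y ∉ I)).card : ℝ) = Y.card -
          (Y.filter (fun y => φ.symm y ∈ I)).card := by
        rw [← h4]; push_cast; ring
      have h6 : (I.card : ℝ) / Fintype.card V * Y.card ≤
          (Y.filter (fun y => φ.symm y ∈ I)).card := by
        rw [div_mul_eq_mul_div, div_le_iff₀ hn]
        linarith
      rw [h5, pow_succ]
      have h7 : 0 ≤ 1 - (I.card : ℝ) / Fintype.card V := by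
        rw [sub_nonneg, div_le_one hn]; exact hIn
      have h8 := mul_le_mul_of_nonneg_right h1 h7
      nlinarith
    · intro v hv
      by_cases hvY : v ∈ Y
      · simp only [hvY, if_true]; omega
      · simp only [hvY, if_false]
        have := h2 v hvY
        omega
    · intro u hu v hv huv
      rw [mem_filter, not_and, not_not] at hu hv
      by_cases huY : u ∈ Y <;> by_cases hvY : v ∈ Y
      · exfalso
        refine hI _ (hu huY) _ (hv hvY) ?_
        exact φ.symm.map_adj_iff.2 huv
      · simp only [huY, hvY, if_true, if_false]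
        have := h2 v hvY
        omega
      · simp only [huY, hvY, if_true, if_false]
        have := h2 u huY
        omega
      · simp only [huY, hvY, if_false]
        exact h3 u huY v hvY huv

/-- Lovász: `χ ≤ (n / α) (1 + log α) + 1` for vertex-transitive graphs. -/
theorem colorable_of_transitive (htr : ∀ x y : V, ∃ φ : G ≃g G, φ x = y) (I : Finset V)
    (hI : ∀ u ∈ I, ∀ v ∈ I, ¬ G.Adj u v) (hI1 : 1 ≤ I.card) :
    ∃ K : ℕ, G.Colorable K ∧ (K : ℝ) ≤ Fintype.card V / I.card * (1 + Real.log I.card) + 1 := by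
  classical
  have hIV : I.card ≤ Fintype.card V := Finset.card_le_univ I
  have hV : 0 < Fintype.card V := by omega
  set n : ℝ := (Fintype.card V : ℝ) with hn'
  have hn : 0 < n := by rw [hn']; exact_mod_cast hV
  have ha1 : (1 : ℝ) ≤ I.card := by exact_mod_cast hI1
  have hlog : 0 ≤ Real.log I.card := Real.log_nonneg ha1
  have hIn : (I.card : ℝ) ≤ n := by rw [hn']; exact_mod_cast hIV
  set m : ℕ := ⌈n / I.card * Real.log I.card⌉₊ with hm
  obtain ⟨Y, c, h1, h2, h3⟩ := exists_cover G htr I hI hV m
  rw [← hn'] at h1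
  have hm1 : n / I.card * Real.log I.card ≤ m := Nat.le_ceil _
  have hm2 : (m : ℝ) ≤ n / I.card * Real.log I.card + 1 :=
    (Nat.ceil_lt_add_one (by positivity)).le
  have h4 : (Y.card : ℝ) ≤ n / I.card := by
    refine h1.trans ?_
    have h5 : 0 ≤ 1 - (I.card : ℝ) / n := by
      rw [sub_nonneg, div_le_one hn]; exact hIn
    have h6 : 1 - (I.card : ℝ) / n ≤ Real.exp (-((I.card : ℝ) / n)) := by
      have := Real.add_one_le_exp (-((I.card : ℝ) / n))
      linarith
    have h7 := pow_le_pow_left₀ h5 h6 m
    rw [← Real.exp_nat_mul] at h7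
    have h8 : Real.exp (m * -((I.card : ℝ) / n)) ≤ (I.card : ℝ)⁻¹ := by
      have h8' : (I.card : ℝ)⁻¹ = Real.exp (-Real.log I.card) := by
        rw [Real.exp_neg, Real.exp_log (by linarith)]
      rw [h8']
      refine Real.exp_le_exp.2 ?_
      have h9 : n / I.card * Real.log I.card * ((I.card : ℝ) / n) ≤ m * ((I.card : ℝ) / n) :=
        mul_le_mul_of_nonneg_right hm1 (by positivity)
      have h10 : n / I.card * Real.log I.card * ((I.card : ℝ) / n) = Real.log I.card := by
        field_simp
      rw [h10] at h9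
      linarith
    rw [div_eq_mul_inv]
    exact mul_le_mul_of_nonneg_left (h7.trans h8) hn.le
  refine ⟨m + Y.card, ?_, ?_⟩
  · refine ⟨SimpleGraph.Coloring.mk (fun v => if h : v ∈ Y then
      (⟨m + (Y.equivFin ⟨v, h⟩ : ℕ), by have := (Y.equivFin ⟨v, h⟩).2; omega⟩ : Fin (m + Y.card))
      else ⟨c v, by have := h2 v h; omega⟩) ?_⟩
    intro u v huv heq
    by_cases hu : u ∈ Y <;> by_cases hv : v ∈ Y
    · simp only [hu, hv, dif_pos, Fin.mk.injEq] at heq
      have h5 : Y.equivFin ⟨u, hu⟩ = Y.equivFin ⟨v, hv⟩ := Fin.ext (by omega)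
      exact huv.ne (congrArg Subtype.val (Y.equivFin.injective h5))
    · simp only [hu, hv, dif_pos, dif_neg, not_false_iff, Fin.mk.injEq] at heq
      have := h2 v hv
      omega
    · simp only [hu, hv, dif_pos, dif_neg, not_false_iff, Fin.mk.injEq] at heq
      have := h2 u hu
      omega
    · simp only [hu, hv, dif_neg, not_false_iff, Fin.mk.injEq] at heq
      exact h3 u hu v hv huv heq
  · push_cast
    rw [mul_add, mul_one]
    linarith

open Classical in
/-- **Clique minors in very dense graphs.** If every vertex has at most `D ≤ n / 16` non-neighbours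
(itself included), then there is a `K_t` minor for all `t ≤ (n / 1000) sqrt (log (n / D) / log n)`. -/
theorem minor_of_nonneighbours {D : ℝ} (hD1 : 1 ≤ D)
    (hD : ∀ v, ((univ.filter (fun w => ¬ G.Adj v w)).card : ℝ) ≤ D)
    (hDn : 16 * D ≤ Fintype.card V) {t : ℕ}
    (ht : (t : ℝ) ≤ Fintype.card V / 1000 *
      Real.sqrt (Real.log (Fintype.card V / D) / Real.log (Fintype.card V))) :
    HasCliqueMinor G t := by
  set n : ℝ := (Fintype.card V : ℝ) with hn'
  have hn16 : 16 ≤ n := by linarith
  have hn0 : 0 < n := by linarith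
  have hL : 0 < Real.log n := Real.log_pos (by linarith)
  have hlD : 0 ≤ Real.log D := Real.log_nonneg hD1
  have hratio : 16 ≤ n / D := by rw [le_div_iff₀ (by linarith)]; exact hDn
  have hLR : 0 < Real.log (n / D) := Real.log_pos (by linarith)
  have hLRL : Real.log (n / D) ≤ Real.log n := by
    rw [Real.log_div (by linarith) (by linarith)]; linarith
  set R : ℝ := Real.sqrt (Real.log (n / D) / Real.log n) with hR
  have hR2 : R ^ 2 = Real.log (n / D) / Real.log n := Real.sq_sqrt (by positivity)
  have hR0 : 0 < R := Real.sqrt_pos.2 (by positivity)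
  have hR1 : R ≤ 1 := by
    rw [hR, ← Real.sqrt_one]
    exact Real.sqrt_le_sqrt ((div_le_one hL).2 hLRL)
  set s : ℕ := ⌈4 / R⌉₊ with hs
  have hs1 : 4 / R ≤ s := Nat.le_ceil _
  have hs2 : (s : ℝ) ≤ 4 / R + 1 := (Nat.ceil_lt_add_one (by positivity)).le
  have hs1' : 4 ≤ s * R := by rwa [div_le_iff₀ hR0] at hs1
  have hs2' : (s : ℝ) * R ≤ 5 := by
    have h1 : (s : ℝ) * R ≤ (4 / R + 1) * R := mul_le_mul_of_nonneg_right hs2 hR0.le
    have h2 : (4 / R + 1) * R = 4 + R := by field_simp
    linarith
  have hs4 : (4 : ℝ) ≤ s := by nlinarith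
  have hs0 : 1 ≤ s := by
    have : (1 : ℝ) ≤ s := by linarith
    exact_mod_cast this
  have ht0 : (0 : ℝ) ≤ t := Nat.cast_nonneg _
  have htn : (t : ℝ) ≤ n := by
    have : n / 1000 * R ≤ n / 1000 * 1 := mul_le_mul_of_nonneg_left hR1 (by positivity)
    linarith
  set κ : ℝ := 2 * D / n with hκ
  have hκ0 : 0 < κ := by positivity
  have hκ8 : κ ≤ 1 / 8 := by
    rw [hκ, div_le_iff₀ hn0]; linarith
  have hVne : Nonempty V := by
    rw [← Fintype.card_pos_iff]
    have h0 : (0 : ℝ) < (Fintype.card V : ℝ) := hn0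
    exact_mod_cast h0
  have hsd : ∀ X : Finset V, (X.card : ℝ) ≤ n / 4 → n / 2 ≤ ((univ \ X).card : ℝ) := by
    intro X hX
    have h1 := Finset.le_card_sdiff X (univ : Finset V)
    rw [Finset.card_univ] at h1
    have h2 : n ≤ X.card + ((univ \ X).card : ℝ) := by
      rw [hn']
      have : Fintype.card V ≤ X.card + (univ \ X).card := by omega
      exact_mod_cast this
    linarith
  refine exists_branches G (U := univ) (W := univ) (s := s) (t := t) (κ := κ) (μ := κ ^ s)
    (m := n / 4) hs0 hκ0.le le_rfl univ_nonempty ?_ ?_ ?_ ?_ ?_ ?_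
  · -- links: common neighbours
    intro X hX v _ hvX a _ haX
    have h1 : (X.card : ℝ) < (nb G v ∩ nb G a).card := by
      have h2 : (univ : Finset V) ⊆ (nb G v ∩ nb G a) ∪ ((univ.filter (fun w => ¬ G.Adj v w)) ∪
          (univ.filter (fun w => ¬ G.Adj a w))) := by
        intro w _
        simp only [mem_union, mem_inter, mem_nb, mem_filter, mem_univ, true_and]
        tauto
      have h3 := Finset.card_le_card h2
      have h4 := Finset.card_union_le (nb G v ∩ nb G a) ((univ.filter (fun w => ¬ G.Adj v w)) ∪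
          (univ.filter (fun w => ¬ G.Adj a w)))
      have h5 := Finset.card_union_le (univ.filter (fun w => ¬ G.Adj v w))
          (univ.filter (fun w => ¬ G.Adj a w))
      rw [Finset.card_univ] at h3
      have h6 : n ≤ (nb G v ∩ nb G a).card + ((univ.filter (fun w => ¬ G.Adj v w)).card +
          (univ.filter (fun w => ¬ G.Adj a w)).card) := by
        rw [hn']
        exact_mod_cast (by omega : Fintype.card V ≤ (nb G v ∩ nb G a).card +
          ((univ.filter (fun w => ¬ G.Adj v w)).card + (univ.filter (fun w => ¬ G.Adj a w)).card))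
      have h7 := hD v
      have h8 := hD a
      linarith
    obtain ⟨x, hx, hxX⟩ := exists_avoid h1
    rw [mem_inter, mem_nb, mem_nb] at hx
    refine ⟨.cons hx.1 (.cons hx.2.symm .nil), by simp, ?_⟩
    intro z hz
    simp only [SimpleGraph.Walk.support_cons, SimpleGraph.Walk.support_nil, List.mem_cons,
      List.not_mem_nil, or_false] at hz
    rcases hz with rfl | rfl | rfl <;> assumption
  · intro X hX
    have h1 := hsd X hX
    rw [← Finset.card_pos]
    have : (0 : ℝ) < ((univ \ X).card : ℝ) := by linarith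
    exact_mod_cast this
  · intro X hX v _
    have h1 := hsd X hX
    have h2 : (((univ \ X).filter (fun u => ¬ G.Adj v u)).card : ℝ) ≤ D := by
      refine le_trans ?_ (hD v)
      exact_mod_cast Finset.card_le_card (Finset.filter_subset_filter _ Finset.sdiff_subset)
    refine h2.trans ?_
    have h3 : κ * (n / 2) ≤ κ * ((univ \ X).card : ℝ) := mul_le_mul_of_nonneg_left h1 hκ0.le
    have h4 : κ * (n / 2) = D := by rw [hκ]; field_simp
    linarith
  · intro X hX
    have h1 := hsd X hX
    rw [Finset.card_univ, ← hn']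
    linarith
  · have h1 : (12 * s * t : ℝ) ≤ 12 * s * (n / 1000 * R) := mul_le_mul_of_nonneg_left ht (by positivity)
    have h2 : (12 * s * (n / 1000 * R) : ℝ) = 12 * (s * R) * (n / 1000) := by ring
    have h3 : 12 * (s * R) * (n / 1000) ≤ 12 * 5 * (n / 1000) :=
      mul_le_mul_of_nonneg_right (by linarith) (by positivity)
    linarith
  · -- `t (2 κ ^ s) ^ s < 1`
    have h1 : 2 * κ ^ s ≤ (Real.sqrt κ) ^ s := by
      have h2 : κ ^ s = (Real.sqrt κ) ^ s * (Real.sqrt κ) ^ s := by
        rw [← mul_pow, Real.mul_self_sqrt hκ0.le]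
      have h3 : Real.sqrt κ ≤ 1 / 2 := by
        rw [show (1 / 2 : ℝ) = Real.sqrt (1 / 4) by
          rw [show (1 / 4 : ℝ) = (1 / 2) ^ 2 by norm_num]
          exact (Real.sqrt_sq (by norm_num)).symm]
        exact Real.sqrt_le_sqrt (by linarith)
      have h4 : (Real.sqrt κ) ^ s ≤ 1 / 2 := by
        calc (Real.sqrt κ) ^ s ≤ (Real.sqrt κ) ^ 1 :=
              pow_le_pow_of_le_one (Real.sqrt_nonneg _) (by linarith) hs0
          _ ≤ 1 / 2 := by rw [pow_one]; exact h3
      rw [h2]
      have h5 : 0 ≤ (Real.sqrt κ) ^ s := pow_nonneg (Real.sqrt_nonneg _) s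
      nlinarith
    have h2 : (2 * κ ^ s) ^ s ≤ ((Real.sqrt κ) ^ s) ^ s := pow_le_pow_left₀ (by positivity) h1 s
    have hκlog : Real.log κ ≤ -(Real.log (n / D) * (3 / 4)) := by
      have h3 : κ = 2 / (n / D) := by rw [hκ]; field_simp
      rw [h3, Real.log_div (by norm_num) (by positivity)]
      have h4 : Real.log 2 ≤ Real.log (n / D) * (1 / 4) := by
        have h5 : Real.log (2 ^ 4) ≤ Real.log (n / D) := Real.log_le_log (by norm_num) (by linarith)
        rw [Real.log_pow] at h5
        push_cast at h5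
        linarith
      linarith
    have h3 : ((Real.sqrt κ) ^ s) ^ s ≤ Real.exp (-(6 * Real.log n)) := by
      rw [← pow_mul, ← Real.exp_log (Real.sqrt_pos.2 hκ0), ← Real.exp_nat_mul,
        Real.log_sqrt hκ0.le]
      refine Real.exp_le_exp.2 ?_
      push_cast
      have h4 : Real.log (n / D) = R ^ 2 * Real.log n := by
        rw [hR2]; field_simp
      rw [h4] at hκlog
      have h5 : (s : ℝ) * s * (Real.log κ / 2) ≤ s * s * (-(R ^ 2 * Real.log n * (3 / 4)) / 2) :=
        mul_le_mul_of_nonneg_left (by linarith) (by positivity)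
      refine h5.trans ?_
      have h6 : (s : ℝ) * s * (-(R ^ 2 * Real.log n * (3 / 4)) / 2) =
          -((s * R) ^ 2 * (3 / 8) * Real.log n) := by ring
      rw [h6, neg_le_neg_iff]
      have h7 : (4 : ℝ) ^ 2 ≤ (s * R) ^ 2 := pow_le_pow_left₀ (by norm_num) hs1' 2
      have h8 : (16 : ℝ) * (3 / 8) * Real.log n ≤ (s * R) ^ 2 * (3 / 8) * Real.log n := by
        refine mul_le_mul_of_nonneg_right ?_ hL.le
        linarith
      linarith
    have h5 : Real.exp (-(6 * Real.log n)) = (n ^ 6)⁻¹ := by
      rw [Real.exp_neg]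
      congr 1
      have : 6 * Real.log n = Real.log (n ^ 6) := by
        rw [Real.log_pow]; norm_num
      rw [this, Real.exp_log (by positivity)]
    rw [h5] at h3
    calc (t : ℝ) * (2 * κ ^ s) ^ s ≤ n * (n ^ 6)⁻¹ :=
          mul_le_mul htn (h2.trans h3) (by positivity) (by linarith)
      _ < 1 := by
          rw [← div_eq_mul_inv, div_lt_one (by positivity)]
          have : 1 < n ^ 5 := one_lt_pow₀ (by linarith) (by norm_num)
          nlinarith

end Pool.Agent.Y395.HD
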