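import Pool.Agent.Y395.HD.Trans
import Pool.Agent.Y395.HD.Rand

/-!
Hadwiger's conjecture for dense vertex-transitive graphs.
-/

set_option autoImplicit false

namespace Pool.Agent.Y395.HD

open Finset

variable {V : Type} [Fintype V] [DecidableEq V] (G : SimpleGraph V)

/-- `G` is vertex-transitive. -/
def Transitive {V : Type} (G : SimpleGraph V) : Prop := ∀ x y : V, ∃ φ : G ≃g G, φ x = y

/-- The colouring bound in a convenient form. -/
theorem colorable_two (htr : Transitive G) (I : Finset V)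
    (hI : ∀ u ∈ I, ∀ v ∈ I, ¬ G.Adj u v) (hI1 : 1 ≤ I.card) {k : ℕ} (hk : ¬ G.Colorable k) :
    ((k + 1 : ℕ) : ℝ) * I.card ≤ 2 * (Fintype.card V * (1 + Real.log I.card)) := by
  obtain ⟨K, hK, hKb⟩ := colorable_of_transitive G htr I hI hI1
  have hkK : k + 1 ≤ K := by
    by_contra hcon
    exact hk (hK.mono (by omega))
  have ha : (1 : ℝ) ≤ I.card := by exact_mod_cast hI1
  have hn : (I.card : ℝ) ≤ Fintype.card V := by exact_mod_cast Finset.card_le_univ I
  have hlog : 0 ≤ Real.log I.card := Real.log_nonneg ha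
  have h1 : ((k + 1 : ℕ) : ℝ) ≤ K := by exact_mod_cast hkK
  have h2 : ((k + 1 : ℕ) : ℝ) * I.card ≤
      (Fintype.card V / I.card * (1 + Real.log I.card) + 1) * I.card :=
    mul_le_mul_of_nonneg_right (h1.trans hKb) (by linarith)
  have h3 : ((Fintype.card V : ℝ) / I.card * (1 + Real.log I.card) + 1) * I.card =
      Fintype.card V * (1 + Real.log I.card) + I.card := by
    field_simp
  rw [h3] at h2
  nlinarith

/-- **Very dense vertex-transitive graphs.** -/
theorem transitive_very_dense {A : ℕ} (htr : Transitive G) (I : Finset V)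
    (hI : ∀ u ∈ I, ∀ v ∈ I, ¬ G.Adj u v) (hI1 : 1 ≤ I.card) {D : ℕ}
    (hD : ∀ v, (univ.filter (fun w => ¬ (w ∈ nb G v))).card = D)
    (hDn : 16 * D ≤ Fintype.card V)
    (h : 2000 * (A : ℝ) * (1 + Real.log I.card) ≤ I.card *
      Real.sqrt (Real.log (Fintype.card V / D) / Real.log (Fintype.card V))) :
    Hadwiger G A := by
  classical
  intro k hk
  have hI0 : (1 : ℝ) ≤ I.card := by exact_mod_cast hI1
  have hne : Nonempty V := by
    obtain ⟨v, -⟩ := Finset.card_pos.1 (show 0 < I.card by omega)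
    exact ⟨v⟩
  obtain ⟨v0⟩ := hne
  have hD1 : 1 ≤ D := by
    rw [← hD v0]
    refine Finset.card_pos.2 ⟨v0, ?_⟩
    rw [mem_filter, mem_nb]
    exact ⟨mem_univ _, G.irrefl⟩
  have h2 := colorable_two G htr I hI hI1 hk
  refine minor_of_nonneighbours G (D := D) (by exact_mod_cast hD1) ?_ (by exact_mod_cast hDn) ?_
  · intro v
    rw [← hD v]
    refine le_of_eq ?_
    congr 2
    ext w
    simp only [mem_filter, mem_univ, true_and, mem_nb]
  · set n : ℝ := (Fintype.card V : ℝ) with hn
    set R := Real.sqrt (Real.log (n / D) / Real.log n) with hR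
    have hn0 : (0 : ℝ) ≤ n := by rw [hn]; exact Nat.cast_nonneg _
    push_cast at h2 ⊢
    have h3 : (A : ℝ) * (k + 1) * I.card ≤ n / 1000 * R * I.card := by
      calc (A : ℝ) * (k + 1) * I.card = A * ((k + 1) * I.card) := by ring
        _ ≤ A * (2 * (n * (1 + Real.log I.card))) :=
            mul_le_mul_of_nonneg_left h2 (Nat.cast_nonneg _)
        _ = n / 1000 * (2000 * (A : ℝ) * (1 + Real.log I.card)) := by ring
        _ ≤ n / 1000 * (I.card * R) := mul_le_mul_of_nonneg_left h (by positivity)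
        _ = n / 1000 * R * I.card := by ring
    exact le_of_mul_le_mul_right h3 (by linarith)

/-- **Dense vertex-transitive graphs.** -/
theorem transitive_dense {A : ℕ} (htr : Transitive G) (I : Finset V)
    (hI : ∀ u ∈ I, ∀ v ∈ I, ¬ G.Adj u v) (hI1 : 1 ≤ I.card) {q : ℝ} (hq : 0 < q)
    (hdeg : ∀ v, q * Fintype.card V ≤ (nb G v).card)
    (hL : 8 ≤ q * Real.sqrt (Real.log (Fintype.card V)))
    (h : 2 * 10 ^ 6 * (A : ℝ) * (1 + Real.log I.card) *
      Real.sqrt (Real.log (Fintype.card V)) ≤ q ^ 4 * I.card) :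
    Hadwiger G A := by
  classical
  intro k hk
  have hI0 : (1 : ℝ) ≤ I.card := by exact_mod_cast hI1
  obtain ⟨v0, -⟩ := Finset.card_pos.1 (show 0 < I.card by omega)
  have hV : 0 < Fintype.card V := Fintype.card_pos_iff.2 ⟨v0⟩
  have h2 := colorable_two G htr I hI hI1 hk
  set n : ℝ := (Fintype.card V : ℝ) with hn
  have hn0 : 0 < n := by rw [hn]; exact_mod_cast hV
  set L := Real.sqrt (Real.log n) with hLd
  have hL0 : 0 ≤ L := Real.sqrt_nonneg _
  have hLpos : 0 < L := by
    rcases hL0.eq_or_lt with h1 | h1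
    · rw [← h1, mul_zero] at hL; norm_num at hL
    · exact h1
  have hq1 : q ≤ 1 := by
    have h1 : ((nb G v0).card : ℝ) ≤ n := by
      rw [hn]; exact_mod_cast Finset.card_le_univ _
    have h3 : q * n ≤ 1 * n := by linarith [hdeg v0]
    exact le_of_mul_le_mul_right h3 hn0
  have hn2 : 2 ≤ Fintype.card V := by
    by_contra hcon
    have h1 : Fintype.card V = 1 := by omega
    have h2 : n = 1 := by rw [hn, h1]; norm_num
    have h3 : L = 0 := by rw [hLd, h2, Real.log_one, Real.sqrt_zero]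
    linarith
  refine minor_log G hq hq1 hn2 ?_ hL ?_
  · calc q * n ^ 2 = ∑ v : V, q * n := by
          rw [Finset.sum_const, Finset.card_univ, nsmul_eq_mul, ← hn]; ring
      _ ≤ _ := Finset.sum_le_sum fun v _ => hdeg v
  · rw [← hn, ← hLd, le_div_iff₀ (by positivity)]
    push_cast at h2 ⊢
    have h3 : (A : ℝ) * (k + 1) * (10 ^ 6 * L) * I.card ≤ q ^ 4 * n * I.card := by
      calc (A : ℝ) * (k + 1) * (10 ^ 6 * L) * I.card = A * (10 ^ 6 * L) * ((k + 1) * I.card) := by
            ring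
        _ ≤ A * (10 ^ 6 * L) * (2 * (n * (1 + Real.log I.card))) :=
            mul_le_mul_of_nonneg_left h2 (by positivity)
        _ = n * (2 * 10 ^ 6 * (A : ℝ) * (1 + Real.log I.card) * L) := by ring
        _ ≤ n * (q ^ 4 * I.card) := mul_le_mul_of_nonneg_left h hn0.le
        _ = q ^ 4 * n * I.card := by ring
    exact le_of_mul_le_mul_right h3 (by linarith)

theorem Transitive.compl {G : SimpleGraph V} (h : Transitive G) : Transitive Gᶜ := by
  intro x y
  obtain ⟨φ, hφ⟩ := h x y
  refine ⟨⟨φ.toEquiv, ?_⟩, hφ⟩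
  intro a b
  rw [SimpleGraph.compl_adj, SimpleGraph.compl_adj]
  have h1 : G.Adj (φ a) (φ b) ↔ G.Adj a b := φ.map_adj_iff
  have h2 : φ a ≠ φ b ↔ a ≠ b := φ.injective.ne_iff
  exact and_congr h2 (not_congr h1)

/-- **A dichotomy.** A large vertex-transitive graph which is neither sparse nor co-sparse
satisfies Hadwiger's conjecture, or its complement does. -/
theorem dichotomy {A : ℕ} (hA : 1 ≤ A) {p : ℝ} (hp : 0 < p) :
    ∃ N : ℕ, ∀ (V : Type) [Fintype V] (G : SimpleGraph V), N ≤ Fintype.card V → Transitive G →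
      (∀ v, p * Fintype.card V ≤ {w | G.Adj v w}.ncard) →
      (∀ v, ({w | G.Adj v w}.ncard : ℝ) ≤ (1 - p) * Fintype.card V) →
      Hadwiger G A ∨ Hadwiger Gᶜ A := by
  classical
  have hA1 : (1 : ℝ) ≤ A := by exact_mod_cast hA
  set c : ℝ := p ^ 4 / (10 ^ 7 * A) with hc
  have hc0 : 0 < c := by positivity
  have hT : Filter.Tendsto (fun n : ℕ => Real.sqrt (Real.log (n : ℝ))) Filter.atTop
      Filter.atTop :=
    (Real.tendsto_sqrt_atTop.comp Real.tendsto_log_atTop).comp tendsto_natCast_atTop_atTop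
  set B : ℝ := 4 * 10 ^ 6 * A / (p / 2) ^ 4 with hB
  have hB0 : 0 < B := by positivity
  -- `L ^ 4 + 1 ≤ exp (c L)` eventually
  have e1 : ∀ᶠ x : ℝ in Filter.atTop, x ^ 4 + 1 ≤ Real.exp (c * x) := by
    have h1 := (isLittleO_pow_exp_pos_mul_atTop 4 hc0).bound (show (0 : ℝ) < 1 / 2 by norm_num)
    filter_upwards [h1, Filter.eventually_ge_atTop 1] with x hx hx1
    rw [Real.norm_of_nonneg (by positivity), Real.norm_of_nonneg (Real.exp_pos _).le] at hx
    have : 1 ≤ x ^ 4 := one_le_pow₀ hx1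
    linarith
  have e2 := hT.eventually (e1.and ((Filter.eventually_ge_atTop B).and
    ((Filter.eventually_ge_atTop (16 / p)).and (Filter.eventually_ge_atTop 1))))
  have e3 : ∀ᶠ n : ℕ in Filter.atTop, 2 / p ≤ (n : ℝ) :=
    tendsto_natCast_atTop_atTop.eventually (Filter.eventually_ge_atTop _)
  obtain ⟨N, hN⟩ := Filter.eventually_atTop.1 (e2.and e3)
  refine ⟨N, ?_⟩
  intro V _ G hV htr hd1 hd2
  obtain ⟨⟨f1, f2, f3, f4⟩, f5⟩ := hN _ hV
  set n : ℝ := (Fintype.card V : ℝ) with hn
  set L := Real.sqrt (Real.log n) with hL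
  have hnbcard : ∀ v, (nb G v).card = {w | G.Adj v w}.ncard := by
    intro v
    rw [← Set.ncard_coe_finset]
    congr 1
    ext w
    simp [mem_nb]
  have hn0 : 0 < n := lt_of_lt_of_le (by positivity) f5
  have hexp1 : 1 ≤ Real.exp (c * L) := Real.one_le_exp (by positivity)
  set w1 : ℕ := ⌊Real.exp (c * L)⌋₊ with hw1
  have hw1a : 1 ≤ w1 := by rw [hw1]; exact Nat.le_floor (by exact_mod_cast hexp1)
  have hw1b : (w1 : ℝ) ≤ Real.exp (c * L) := Nat.floor_le (Real.exp_pos _).le
  have hw1c : Real.exp (c * L) < w1 + 1 := Nat.lt_floor_add_one _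
  by_cases hcl : ∀ K : Finset V, (∀ u ∈ K, ∀ v ∈ K, u ≠ v → G.Adj u v) → K.card ≤ w1 - 1
  · left
    intro k hk
    refine hadwiger_of_clique G (w := w1 - 1) hA hp ?_ hcl ?_ hk
    · calc p * n ^ 2 = ∑ v : V, p * n := by
            rw [Finset.sum_const, Finset.card_univ, nsmul_eq_mul, ← hn]; ring
        _ ≤ _ := Finset.sum_le_sum fun v _ => by rw [hnbcard]; exact hd1 v
    · have h1 : (((w1 - 1 : ℕ) : ℝ) + 1) = w1 := by
        have : w1 - 1 + 1 = w1 := by omega
        exact_mod_cast this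
      rw [h1]
      have h2 : Real.log w1 ≤ c * L := by
        have h3 := Real.log_le_log (by exact_mod_cast hw1a) hw1b
        rwa [Real.log_exp] at h3
      calc 10 ^ 7 * (A : ℝ) * Real.log w1 ≤ 10 ^ 7 * (A : ℝ) * (c * L) :=
            mul_le_mul_of_nonneg_left h2 (by positivity)
        _ = p ^ 4 * L := by rw [hc]; field_simp
  · right
    push Not at hcl
    obtain ⟨K, hK, hKc⟩ := hcl
    have hKw : w1 ≤ K.card := by omega
    have hKr : L ^ 4 ≤ K.card := by
      have : (w1 : ℝ) ≤ K.card := by exact_mod_cast hKw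
      linarith
    have hK1 : 1 ≤ K.card := by omega
    have hK1r : (1 : ℝ) ≤ K.card := by exact_mod_cast hK1
    refine transitive_dense Gᶜ (A := A) htr.compl K ?_ hK1 (q := p / 2) (by positivity) ?_ ?_ ?_
    · intro u hu v hv h
      rw [SimpleGraph.compl_adj] at h
      exact h.2 (hK u hu v hv h.1)
    · intro v
      have h1 : (univ : Finset V) = (nb Gᶜ v ∪ nb G v) ∪ {v} := by
        ext w
        simp only [mem_univ, mem_union, mem_nb, SimpleGraph.compl_adj, mem_singleton, true_iff]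
        by_cases h : v = w
        · exact Or.inr h.symm
        · by_cases h' : G.Adj v w
          · exact Or.inl (Or.inr h')
          · exact Or.inl (Or.inl ⟨h, h'⟩)
      have h2 := congrArg Finset.card h1
      rw [Finset.card_univ] at h2
      have h3 := Finset.card_union_le (nb Gᶜ v ∪ nb G v) {v}
      have h4 := Finset.card_union_le (nb Gᶜ v) (nb G v)
      rw [card_singleton] at h3
      have h5 : n ≤ (nb Gᶜ v).card + (nb G v).card + 1 := by
        rw [hn]; exact_mod_cast (by omega :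
          Fintype.card V ≤ (nb Gᶜ v).card + (nb G v).card + 1)
      have h6 := hd2 v
      rw [← hnbcard v] at h6
      have h7 : 1 ≤ p / 2 * n := by
        have : 2 ≤ n * p := by rwa [div_le_iff₀ hp] at f5
        linarith
      linarith
    · have : 16 ≤ L * p := by rwa [div_le_iff₀ hp] at f3
      linarith
    · -- `2 * 10^6 A (1 + log α) L ≤ (p/2)^4 α`
      set α : ℝ := (K.card : ℝ) with hα
      have hα0 : 0 < α := by linarith
      have hsq : Real.sqrt α ^ 2 = α := Real.sq_sqrt hα0.le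
      have hsq0 : 0 < Real.sqrt α := Real.sqrt_pos.2 hα0
      have hlog : 1 + Real.log α ≤ 2 * Real.sqrt α := by
        have h1 : Real.log α = 2 * Real.log (Real.sqrt α) := by
          rw [Real.log_sqrt hα0.le]; ring
        have h2 := Real.log_le_sub_one_of_pos hsq0
        rw [h1]; linarith
      have hL2 : L ^ 2 ≤ Real.sqrt α := by
        have h3 : L ^ 2 = Real.sqrt ((L ^ 2) ^ 2) := (Real.sqrt_sq (by positivity)).symm
        rw [h3]
        refine Real.sqrt_le_sqrt ?_
        calc (L ^ 2) ^ 2 = L ^ 4 := by ring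
          _ ≤ α := hKr
      have hBL : B * L ≤ Real.sqrt α := by nlinarith
      have h4 : 2 * 10 ^ 6 * (A : ℝ) * (1 + Real.log α) * L ≤
          2 * 10 ^ 6 * (A : ℝ) * (2 * Real.sqrt α) * L := by
        refine mul_le_mul_of_nonneg_right (mul_le_mul_of_nonneg_left hlog (by positivity))
          (by linarith)
      have h5 : 2 * 10 ^ 6 * (A : ℝ) * (2 * Real.sqrt α) * L =
          (p / 2) ^ 4 * (B * L) * Real.sqrt α := by
        rw [hB]; field_simp; ring
      have h6 : (p / 2) ^ 4 * (B * L) * Real.sqrt α ≤ (p / 2) ^ 4 * Real.sqrt α * Real.sqrt α := by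
        refine mul_le_mul_of_nonneg_right (mul_le_mul_of_nonneg_left hBL (by positivity)) hsq0.le
      have h7 : (p / 2) ^ 4 * Real.sqrt α * Real.sqrt α = (p / 2) ^ 4 * α := by
        rw [mul_assoc, ← sq, hsq]
      linarith

end Pool.Agent.Y395.HD
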